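import Mathlib

set_option autoImplicit false

open Filter Topology
open scoped InnerProductSpace

namespace Pool.Agent.Helper55.WH

section Block

variable {L H : Type*} [NormedAddCommGroup L] [InnerProductSpace ℂ L]
  [NormedAddCommGroup H] [InnerProductSpace ℂ H]

/-- Data under which the block construction works: `M` is (on all of `L`) a left inverse partner of
`M'`, isometric on `K` and weakly null there, and `Q` intertwines `M` with `T` and `M'` with `S`. -/
structure BlockData (M M' : L →L[ℂ] L) (Q : L →L[ℂ] H) (T S : H →L[ℂ] H)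
    (K : Submodule ℂ L) : Prop where
  mapM : ∀ x ∈ K, M x ∈ K
  mapM' : ∀ x ∈ K, M' x ∈ K
  inv : ∀ x, M (M' x) = x
  iso : ∀ x ∈ K, ∀ y ∈ K, ⟪M x, M y⟫_ℂ = ⟪x, y⟫_ℂ
  weak : ∀ x ∈ K, ∀ y ∈ K, Tendsto (fun n : ℕ => ⟪(M ^ n) x, y⟫_ℂ) atTop (𝓝 0)
  intT : ∀ x, T (Q x) = Q (M x)
  intS : ∀ x, S (Q x) = Q (M' x)
  strong : ∀ x, Tendsto (fun n : ℕ => (S ^ n) x) atTop (𝓝 0)
  dense : Dense (Q '' (K : Set L))

namespace BlockData

variable {M M' : L →L[ℂ] L} {Q : L →L[ℂ] H} {T S : H →L[ℂ] H} {K : Submodule ℂ L}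

lemma pow_mapM (h : BlockData M M' Q T S K) (n : ℕ) : ∀ x ∈ K, (M ^ n) x ∈ K := by
  induction n with
  | zero => intro x hx; simpa using hx
  | succ n ih => intro x hx; rw [pow_succ]; exact ih _ (h.mapM x hx)

lemma pow_mapM' (h : BlockData M M' Q T S K) (n : ℕ) : ∀ x ∈ K, (M' ^ n) x ∈ K := by
  induction n with
  | zero => intro x hx; simpa using hx
  | succ n ih => intro x hx; rw [pow_succ]; exact ih _ (h.mapM' x hx)

lemma pow_inv (h : BlockData M M' Q T S K) (n : ℕ) : ∀ x, (M ^ n) ((M' ^ n) x) = x := by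
  induction n with
  | zero => intro x; simp
  | succ n ih =>
    intro x
    rw [pow_succ, pow_succ']
    change (M ^ n) (M (M' ((M' ^ n) x))) = x
    rw [h.inv, ih]

lemma pow_iso (h : BlockData M M' Q T S K) (n : ℕ) : ∀ x ∈ K, ∀ y ∈ K,
    ⟪(M ^ n) x, (M ^ n) y⟫_ℂ = ⟪x, y⟫_ℂ := by
  induction n with
  | zero => intro x _ y _; simp
  | succ n ih =>
    intro x hx y hy
    rw [pow_succ]
    change ⟪(M ^ n) (M x), (M ^ n) (M y)⟫_ℂ = ⟪x, y⟫_ℂ
    rw [ih _ (h.mapM x hx) _ (h.mapM y hy), h.iso x hx y hy]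

lemma pow_norm (h : BlockData M M' Q T S K) (n : ℕ) (x : L) (hx : x ∈ K) :
    ‖(M ^ n) x‖ = ‖x‖ := by
  have := h.pow_iso n x hx x hx
  rw [inner_self_eq_norm_sq_to_K, inner_self_eq_norm_sq_to_K] at this
  have h2 : ‖(M ^ n) x‖ ^ 2 = ‖x‖ ^ 2 := by exact_mod_cast this
  exact (pow_left_inj₀ (norm_nonneg _) (norm_nonneg _) two_ne_zero).1 h2

lemma pow_norm' (h : BlockData M M' Q T S K) (n : ℕ) (x : L) (hx : x ∈ K) :
    ‖(M' ^ n) x‖ = ‖x‖ := by
  rw [← h.pow_norm n _ (h.pow_mapM' n x hx), h.pow_inv]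

lemma pow_intT (h : BlockData M M' Q T S K) (n : ℕ) : ∀ x, (T ^ n) (Q x) = Q ((M ^ n) x) := by
  induction n with
  | zero => intro x; simp
  | succ n ih =>
    intro x
    rw [pow_succ, pow_succ]
    change (T ^ n) (T (Q x)) = Q ((M ^ n) (M x))
    rw [h.intT, ih]

lemma pow_intS (h : BlockData M M' Q T S K) (n : ℕ) : ∀ x, (S ^ n) (Q x) = Q ((M' ^ n) x) := by
  induction n with
  | zero => intro x; simp
  | succ n ih =>
    intro x
    rw [pow_succ, pow_succ]
    change (S ^ n) (S (Q x)) = Q ((M' ^ n) (M' x))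
    rw [h.intS, ih]

/-- Inductive construction of the blocks. -/
lemma step (h : BlockData M M' Q T S K) {w₀ w : L} (hw₀ : w₀ ∈ K) (hw : w ∈ K)
    {δ δ₀ C : ℝ} (hδ : 0 < δ) (hδ₀ : 0 < δ₀) (hC₀ : ‖w₀‖ ^ 2 < C) (hC : ‖w‖ ^ 2 < C) (J : ℕ) :
    ∃ x ∈ K, ∃ m : ℕ → ℕ, ∃ y : ℕ → L,
      ‖Q x - Q w₀‖ < δ ∧
      (∀ j < J, ‖(T ^ (m j)) (Q x) - Q w - Q (y j)‖ < δ) ∧
      (∀ j < J, y j ∈ K ∧ ‖y j‖ ^ 2 < C * (j + 1)) ∧
      (∀ j < J, ∀ k < J, j ≠ k → ‖⟪y j, y k⟫_ℂ‖ < δ₀) ∧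
      ‖x‖ ^ 2 < C * (J + 1) := by
  induction J with
  | zero =>
    refine ⟨w₀, hw₀, fun _ => 0, fun _ => 0, ?_, ?_, ?_, ?_, ?_⟩
    · simpa using hδ
    · intro j hj; omega
    · intro j hj; omega
    · intro j hj; omega
    · simpa using hC₀
  | succ J ih =>
    obtain ⟨x, hxK, m, y, ha, hb, hc, hd, he⟩ := ih
    -- the new vector, depending on a large parameter `n`
    have hQ0 : Tendsto (fun n : ℕ => Q ((M' ^ n) w)) atTop (𝓝 0) := by
      have := h.strong (Q w)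
      simpa only [h.pow_intS] using this
    have hcross : Tendsto (fun n : ℕ => ⟪x, (M' ^ n) w⟫_ℂ) atTop (𝓝 0) := by
      have h1 := h.weak x hxK w hw
      refine h1.congr (fun n => ?_)
      rw [← h.pow_iso n x hxK _ (h.pow_mapM' n w hw), h.pow_inv]
    have e1 : ∀ᶠ n : ℕ in atTop, ‖Q (x + (M' ^ n) w) - Q w₀‖ < δ := by
      have : Tendsto (fun n : ℕ => ‖Q (x + (M' ^ n) w) - Q w₀‖) atTop (𝓝 ‖Q x - Q w₀‖) := by
        have h2 : Tendsto (fun n : ℕ => Q (x + (M' ^ n) w) - Q w₀) atTop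
            (𝓝 (Q x + 0 - Q w₀)) := by
          simp only [map_add]
          exact (tendsto_const_nhds.add hQ0).sub tendsto_const_nhds
        simpa using h2.norm
      exact this.eventually (gt_mem_nhds ha)
    have e2 : ∀ j < J, ∀ᶠ n : ℕ in atTop,
        ‖(T ^ (m j)) (Q (x + (M' ^ n) w)) - Q w - Q (y j)‖ < δ := by
      intro j hj
      have : Tendsto (fun n : ℕ => ‖(T ^ (m j)) (Q (x + (M' ^ n) w)) - Q w - Q (y j)‖) atTop
          (𝓝 ‖(T ^ (m j)) (Q x) - Q w - Q (y j)‖) := by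
        have h2 : Tendsto (fun n : ℕ => (T ^ (m j)) (Q (x + (M' ^ n) w)) - Q w - Q (y j)) atTop
            (𝓝 ((T ^ (m j)) (Q x + 0) - Q w - Q (y j))) := by
          simp only [map_add (f := Q)]
          exact ((((T ^ (m j)).continuous.tendsto _).comp
            (tendsto_const_nhds.add hQ0)).sub tendsto_const_nhds).sub tendsto_const_nhds
        simpa using h2.norm
      exact this.eventually (gt_mem_nhds (hb j hj))
    have e3 : ∀ j < J, ∀ᶠ n : ℕ in atTop, ‖⟪(M ^ n) x, y j⟫_ℂ‖ < δ₀ := by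
      intro j hj
      have := (h.weak x hxK (y j) (hc j hj).1).norm
      rw [norm_zero] at this
      exact this.eventually (gt_mem_nhds hδ₀)
    have e4 : ∀ᶠ n : ℕ in atTop, ‖x + (M' ^ n) w‖ ^ 2 < C * ((J + 1 : ℕ) + 1) := by
      have h1 : ∀ n : ℕ, ‖x + (M' ^ n) w‖ ^ 2 =
          ‖x‖ ^ 2 + 2 * (⟪x, (M' ^ n) w⟫_ℂ).re + ‖w‖ ^ 2 := by
        intro n
        rw [@norm_add_sq ℂ, h.pow_norm' n w hw]
        simp
      have h2 : Tendsto (fun n : ℕ => ‖x + (M' ^ n) w‖ ^ 2) atTop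
          (𝓝 (‖x‖ ^ 2 + 2 * (0 : ℂ).re + ‖w‖ ^ 2)) := by
        simp only [h1]
        exact (tendsto_const_nhds.add
          (((Complex.continuous_re.tendsto _).comp hcross).const_mul 2)).add tendsto_const_nhds
      refine h2.eventually (gt_mem_nhds ?_)
      simp only [Complex.zero_re, mul_zero, add_zero]
      push_cast
      nlinarith
    have e2' : ∀ᶠ n : ℕ in atTop, ∀ j < J,
        ‖(T ^ (m j)) (Q (x + (M' ^ n) w)) - Q w - Q (y j)‖ < δ :=
      (Set.finite_lt_nat J).eventually_all.2 e2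
    have e3' : ∀ᶠ n : ℕ in atTop, ∀ j < J, ‖⟪(M ^ n) x, y j⟫_ℂ‖ < δ₀ :=
      (Set.finite_lt_nat J).eventually_all.2 e3
    obtain ⟨n, h1, h2, h3, h4⟩ := (e1.and (e2'.and (e3'.and e4))).exists
    refine ⟨x + (M' ^ n) w, K.add_mem hxK (h.pow_mapM' n w hw),
      fun j => if j = J then n else m j, fun j => if j = J then (M ^ n) x else y j,
      h1, ?_, ?_, ?_, h4⟩
    · intro j hj
      by_cases hjJ : j = J
      · subst hjJ
        simp only [if_true]
        rw [map_add, map_add, h.pow_intT, h.pow_intT, h.pow_inv]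
        simpa using hδ
      · simp only [hjJ, if_false]
        exact h2 j (by omega)
    · intro j hj
      by_cases hjJ : j = J
      · subst hjJ
        simp only [if_true]
        refine ⟨h.pow_mapM n x hxK, ?_⟩
        rw [h.pow_norm n x hxK]
        exact he
      · simp only [hjJ, if_false]
        exact hc j (by omega)
    · intro j hj k hk hjk
      by_cases hjJ : j = J
      · have hkJ : k ≠ J := fun hk' => hjk (hjJ.trans hk'.symm)
        simp only [hjJ, hkJ, if_true, if_false]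
        exact h3 k (by omega)
      · by_cases hkJ : k = J
        · simp only [hjJ, hkJ, if_true, if_false]
          rw [← inner_conj_symm, RCLike.norm_conj]
          exact h3 j (by omega)
        · simp only [hjJ, hkJ, if_false]
          exact hd j (by omega) k (by omega) hjk

end BlockData

end Block

end Pool.Agent.Helper55.WH
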