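import Mathlib
import Pool.Agent.Helper55.WH.Block

set_option autoImplicit false

open Filter Topology
open scoped InnerProductSpace

namespace Pool.Agent.Helper55.WH

section Comb

variable {L : Type*} [NormedAddCommGroup L] [InnerProductSpace ℂ L]

lemma comb_bound (y : ℕ → L) (c : ℕ → ℂ) (J : ℕ) {C δ₀ : ℝ} (hδ₀ : 0 ≤ δ₀)
    (hJ : δ₀ * (J : ℝ) ^ 2 ≤ 1)
    (hc : ∀ j, ‖c j‖ ≤ 1 / ((j : ℝ) + 1))
    (hy : ∀ j < J, ‖y j‖ ^ 2 < C * (j + 1))
    (ho : ∀ j < J, ∀ k < J, j ≠ k → ‖⟪y j, y k⟫_ℂ‖ < δ₀) :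
    ‖∑ j ∈ Finset.range J, c j • y j‖ ^ 2 ≤
      C * (∑ j ∈ Finset.range J, 1 / ((j : ℝ) + 1)) + 1 := by
  set S := ∑ j ∈ Finset.range J, c j • y j with hS
  have h0 : ‖S‖ ^ 2 = ‖⟪S, S⟫_ℂ‖ := by
    rw [inner_self_eq_norm_sq_to_K]; simp
  have hc1 : ∀ j, ‖c j‖ ≤ 1 := by
    intro j
    refine (hc j).trans ?_
    rw [div_le_one (by positivity)]
    linarith [(Nat.cast_nonneg j : (0 : ℝ) ≤ (j : ℝ))]
  have h1 : ‖⟪S, S⟫_ℂ‖ ≤ ∑ j ∈ Finset.range J, ∑ k ∈ Finset.range J,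
      ‖c j‖ * ‖c k‖ * ‖⟪y j, y k⟫_ℂ‖ := by
    rw [hS, sum_inner]
    refine (norm_sum_le _ _).trans (Finset.sum_le_sum fun j _ => ?_)
    rw [inner_sum]
    refine (norm_sum_le _ _).trans (Finset.sum_le_sum fun k _ => ?_)
    rw [inner_smul_left, inner_smul_right, norm_mul, norm_mul, RCLike.norm_conj, mul_assoc]
  have h2 : ∀ j ∈ Finset.range J, ∑ k ∈ Finset.range J,
      ‖c j‖ * ‖c k‖ * ‖⟪y j, y k⟫_ℂ‖ ≤ C * (1 / ((j : ℝ) + 1)) + J * δ₀ := by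
    intro j hj
    have hj' := Finset.mem_range.1 hj
    have h3 : ∀ k ∈ Finset.range J, ‖c j‖ * ‖c k‖ * ‖⟪y j, y k⟫_ℂ‖ ≤
        (if k = j then C * (1 / ((j : ℝ) + 1)) else 0) + δ₀ := by
      intro k hk
      have hk' := Finset.mem_range.1 hk
      by_cases hkj : k = j
      · subst hkj
        simp only [if_true]
        have h4 : ‖⟪y k, y k⟫_ℂ‖ = ‖y k‖ ^ 2 := by
          rw [inner_self_eq_norm_sq_to_K]; simp
        rw [h4]
        have h5 := hy k hk'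
        have h6 := hc k
        have hpos : (0 : ℝ) < (k : ℝ) + 1 := by positivity
        have h7 : ‖c k‖ * ‖c k‖ ≤ (1 / ((k : ℝ) + 1)) * (1 / ((k : ℝ) + 1)) :=
          mul_le_mul h6 h6 (norm_nonneg _) (by positivity)
        have h8 : ‖c k‖ * ‖c k‖ * ‖y k‖ ^ 2 ≤
            (1 / ((k : ℝ) + 1)) * (1 / ((k : ℝ) + 1)) * (C * (k + 1)) :=
          mul_le_mul h7 h5.le (by positivity) (by positivity)
        have h9 : (1 / ((k : ℝ) + 1)) * (1 / ((k : ℝ) + 1)) * (C * (k + 1)) =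
            C * (1 / ((k : ℝ) + 1)) := by
          field_simp
        linarith
      · simp only [hkj, if_false, zero_add]
        have h4 := ho j hj' k hk' (Ne.symm hkj)
        have h5 : ‖c j‖ * ‖c k‖ ≤ 1 := mul_le_one₀ (hc1 j) (norm_nonneg _) (hc1 k)
        calc ‖c j‖ * ‖c k‖ * ‖⟪y j, y k⟫_ℂ‖ ≤ 1 * ‖⟪y j, y k⟫_ℂ‖ :=
              mul_le_mul_of_nonneg_right h5 (norm_nonneg _)
          _ ≤ δ₀ := by rw [one_mul]; exact h4.le
    refine (Finset.sum_le_sum h3).trans ?_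
    rw [Finset.sum_add_distrib, Finset.sum_ite_eq' (Finset.range J) j]
    simp [hj']
  calc ‖S‖ ^ 2 = ‖⟪S, S⟫_ℂ‖ := h0
    _ ≤ _ := h1
    _ ≤ ∑ j ∈ Finset.range J, (C * (1 / ((j : ℝ) + 1)) + J * δ₀) := Finset.sum_le_sum h2
    _ = C * (∑ j ∈ Finset.range J, 1 / ((j : ℝ) + 1)) + J * (J * δ₀) := by
        rw [Finset.sum_add_distrib, Finset.mul_sum]
        simp
    _ ≤ _ := by nlinarith

end Comb

section Main

variable {L H : Type*} [NormedAddCommGroup L] [InnerProductSpace ℂ L]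
  [NormedAddCommGroup H] [InnerProductSpace ℂ H]

/-- The finite block property: from any starting vector `f₀` one gets, arbitrarily close, a vector
`f` whose orbit up to a finite time `N` comes, for every `r`-tuple of functionals of norm at most
`R`, within `ε` of the target `v`. -/
theorem BlockData.block {M M' : L →L[ℂ] L} {Q : L →L[ℂ] H} {T S : H →L[ℂ] H}
    {K : Submodule ℂ L} (h : BlockData M M' Q T S K) (f₀ v : H) {η ε R : ℝ} (hη : 0 < η)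
    (hε : 0 < ε) (hR : 0 ≤ R) (r : ℕ) :
    ∃ f, ‖f - f₀‖ < η ∧ ∃ N : ℕ, ∀ u : Fin r → H, (∀ l, ‖u l‖ ≤ R) →
      ∃ n ≤ N, ∀ l, ‖⟪u l, (T ^ n) f - v⟫_ℂ‖ < ε := by
  have hR1 : 0 < R + 1 := by linarith
  -- approximate
  obtain ⟨_, hw₀', ⟨w₀, hw₀K, rfl⟩⟩ := Metric.dense_iff.1 h.dense f₀ (η / 2) (by positivity)
  obtain ⟨_, hw', ⟨w, hwK, rfl⟩⟩ :=
    Metric.dense_iff.1 h.dense v (ε / (4 * (R + 1))) (by positivity)
  rw [Metric.mem_ball, dist_eq_norm] at hw₀' hw'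
  set δ := min (η / 2) (ε / (4 * (R + 1))) with hδdef
  have hδ : 0 < δ := lt_min (by positivity) (by positivity)
  set C := ‖w₀‖ ^ 2 + ‖w‖ ^ 2 + 1 with hCdef
  have hC0 : 0 < C := by positivity
  set D := (r : ℝ) * (R * ‖Q‖) with hDdef
  have hD0 : 0 ≤ D := by positivity
  -- choose the number of terms
  obtain ⟨J, hJ⟩ := (Real.tendsto_sum_range_one_div_nat_succ_atTop.eventually
    (eventually_gt_atTop (max 1 (4 * D ^ 2 * (C + 1) / ε ^ 2)))).exists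
  set A := ∑ j ∈ Finset.range J, 1 / ((j : ℝ) + 1) with hA
  have hA1 : 1 < A := lt_of_le_of_lt (le_max_left _ _) hJ
  have hA2 : 4 * D ^ 2 * (C + 1) / ε ^ 2 < A := lt_of_le_of_lt (le_max_right _ _) hJ
  have hA3 : D ^ 2 * (C * A + 1) < (ε / 2 * A) ^ 2 := by
    rw [div_lt_iff₀ (by positivity)] at hA2
    nlinarith [mul_nonneg (sq_nonneg D) (by linarith : (0:ℝ) ≤ A - 1)]
  set δ₀ : ℝ := 1 / ((J : ℝ) + 1) ^ 2 with hδ₀def
  have hδ₀ : 0 < δ₀ := by positivity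
  have hδ₀J : δ₀ * (J : ℝ) ^ 2 ≤ 1 := by
    rw [hδ₀def, one_div, inv_mul_le_iff₀ (by positivity), mul_one]
    have : (0 : ℝ) ≤ J := Nat.cast_nonneg J
    nlinarith
  obtain ⟨x, hxK, m, y, ha, hb, hc, hd, -⟩ :=
    h.step hw₀K hwK hδ hδ₀ (C := C) (by rw [hCdef]; nlinarith [sq_nonneg ‖w‖])
      (by rw [hCdef]; nlinarith [sq_nonneg ‖w₀‖]) J
  refine ⟨Q x, ?_, ∑ j ∈ Finset.range J, m j, ?_⟩
  · calc ‖Q x - f₀‖ = ‖(Q x - Q w₀) + (Q w₀ - f₀)‖ := by congr 1; abel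
      _ ≤ ‖Q x - Q w₀‖ + ‖Q w₀ - f₀‖ := norm_add_le _ _
      _ < η / 2 + η / 2 := add_lt_add (ha.trans_le (min_le_left _ _)) hw₀'
      _ = η := by ring
  intro u hu
  by_contra hcon
  push Not at hcon
  -- for each `j < J` there is a bad functional
  have hbad : ∀ j < J, ∃ l : Fin r, ε ≤ ‖⟪u l, (T ^ (m j)) (Q x) - v⟫_ℂ‖ := by
    intro j hj
    exact hcon (m j) (Finset.single_le_sum (f := m) (fun i _ => Nat.zero_le _)
      (Finset.mem_range.2 hj))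
  have hbad' : ∀ j < J, ∃ l : Fin r, ε / 2 ≤ ‖⟪u l, Q (y j)⟫_ℂ‖ := by
    intro j hj
    obtain ⟨l, hl⟩ := hbad j hj
    refine ⟨l, ?_⟩
    have e1 : (T ^ (m j)) (Q x) - v =
        ((T ^ (m j)) (Q x) - Q w - Q (y j)) + (Q w - v) + Q (y j) := by abel
    have e2 : ‖⟪u l, ((T ^ (m j)) (Q x) - Q w - Q (y j)) + (Q w - v)⟫_ℂ‖ ≤ ε / 2 := by
      refine (norm_inner_le_norm _ _).trans ?_
      have e3 : ‖((T ^ (m j)) (Q x) - Q w - Q (y j)) + (Q w - v)‖ ≤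
          ε / (4 * (R + 1)) + ε / (4 * (R + 1)) :=
        (norm_add_le _ _).trans
          (add_le_add ((hb j hj).le.trans (min_le_right _ _)) hw'.le)
      calc ‖u l‖ * ‖((T ^ (m j)) (Q x) - Q w - Q (y j)) + (Q w - v)‖
          ≤ (R + 1) * (ε / (4 * (R + 1)) + ε / (4 * (R + 1))) :=
            mul_le_mul ((hu l).trans (by linarith)) e3 (norm_nonneg _) (by linarith)
        _ = ε / 2 := by field_simp; ring
    rw [e1, inner_add_right] at hl
    have e4 := norm_add_le ⟪u l, ((T ^ (m j)) (Q x) - Q w - Q (y j)) + (Q w - v)⟫_ℂ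
      ⟪u l, Q (y j)⟫_ℂ
    linarith
  have : Nonempty (Fin r) := ⟨(hcon 0 (Nat.zero_le _)).choose⟩
  choose! l hl using hbad'
  -- unimodular phases
  have hphase : ∀ z : ℂ, ∃ θ : ℂ, ‖θ‖ ≤ 1 ∧ θ * z = (‖z‖ : ℂ) := by
    intro z
    by_cases hz : z = 0
    · exact ⟨0, by simp, by simp [hz]⟩
    · refine ⟨(starRingEnd ℂ z) / ‖z‖, ?_, ?_⟩
      · rw [norm_div, RCLike.norm_conj]
        simp [hz]
      · have hz' : (‖z‖ : ℂ) ≠ 0 := by exact_mod_cast (norm_ne_zero_iff.2 hz)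
        field_simp
        rw [mul_comm, Complex.mul_conj, Complex.normSq_eq_norm_sq]
        push_cast
        ring
  choose θ hθ1 hθ2 using hphase
  let c : Fin r → ℕ → ℂ := fun i j =>
    if l j = i then θ (⟪u i, Q (y j)⟫_ℂ) * (1 / ((j : ℂ) + 1)) else 0
  have hcn : ∀ i j, ‖c i j‖ ≤ 1 / ((j : ℝ) + 1) := by
    intro i j
    have hj1 : ‖(1 / ((j : ℂ) + 1))‖ = 1 / ((j : ℝ) + 1) := by
      rw [norm_div, norm_one]
      congr 1
      have : ((j : ℂ) + 1) = ((j + 1 : ℕ) : ℂ) := by push_cast; ring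
      rw [this, Complex.norm_natCast]
      push_cast; ring
    simp only [c]
    split_ifs
    · rw [norm_mul, hj1]
      exact mul_le_of_le_one_left (by positivity) (hθ1 _)
    · rw [norm_zero]; positivity
  have hupper : ∀ i : Fin r, ‖⟪u i, Q (∑ j ∈ Finset.range J, c i j • y j)⟫_ℂ‖ ≤
      R * ‖Q‖ * Real.sqrt (C * A + 1) := by
    intro i
    have h1 := comb_bound y (c i) J hδ₀.le hδ₀J (hcn i) (fun j hj => (hc j hj).2) hd
    have h2 : ‖∑ j ∈ Finset.range J, c i j • y j‖ ≤ Real.sqrt (C * A + 1) :=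
      Real.le_sqrt_of_sq_le h1
    calc ‖⟪u i, Q (∑ j ∈ Finset.range J, c i j • y j)⟫_ℂ‖
        ≤ ‖u i‖ * ‖Q (∑ j ∈ Finset.range J, c i j • y j)‖ := norm_inner_le_norm _ _
      _ ≤ R * (‖Q‖ * Real.sqrt (C * A + 1)) := by
          refine mul_le_mul (hu i) ?_ (norm_nonneg _) hR
          exact (Q.le_opNorm _).trans (mul_le_mul_of_nonneg_left h2 (norm_nonneg _))
      _ = _ := by ring
  have hsum : ∑ i : Fin r, ⟪u i, Q (∑ j ∈ Finset.range J, c i j • y j)⟫_ℂ =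
      ((∑ j ∈ Finset.range J, ‖⟪u (l j), Q (y j)⟫_ℂ‖ * (1 / ((j : ℝ) + 1)) : ℝ) : ℂ) := by
    have e1 : ∀ i : Fin r, ⟪u i, Q (∑ j ∈ Finset.range J, c i j • y j)⟫_ℂ =
        ∑ j ∈ Finset.range J, c i j * ⟪u i, Q (y j)⟫_ℂ := by
      intro i
      rw [map_sum, inner_sum]
      refine Finset.sum_congr rfl fun j _ => ?_
      rw [map_smul, inner_smul_right]
    simp only [e1]
    rw [Finset.sum_comm]
    push_cast
    refine Finset.sum_congr rfl fun j _ => ?_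
    rw [Finset.sum_eq_single (l j)]
    · simp only [c, if_true]
      rw [mul_right_comm, hθ2]
    · intro b _ hb'
      simp only [c, if_neg (Ne.symm hb'), zero_mul]
    · intro hb'; exact absurd (Finset.mem_univ _) hb'
  have hlow : ε / 2 * A ≤ ‖∑ i : Fin r, ⟪u i, Q (∑ j ∈ Finset.range J, c i j • y j)⟫_ℂ‖ := by
    rw [hsum, Complex.norm_real, Real.norm_eq_abs]
    refine le_trans ?_ (le_abs_self _)
    rw [hA, Finset.mul_sum]
    refine Finset.sum_le_sum fun j hj => ?_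
    exact mul_le_mul_of_nonneg_right (hl j (Finset.mem_range.1 hj)) (by positivity)
  have hup2 : ‖∑ i : Fin r, ⟪u i, Q (∑ j ∈ Finset.range J, c i j • y j)⟫_ℂ‖ ≤
      D * Real.sqrt (C * A + 1) := by
    refine (norm_sum_le _ _).trans ?_
    calc ∑ i : Fin r, ‖⟪u i, Q (∑ j ∈ Finset.range J, c i j • y j)⟫_ℂ‖
        ≤ ∑ _i : Fin r, R * ‖Q‖ * Real.sqrt (C * A + 1) := Finset.sum_le_sum fun i _ => hupper i
      _ = D * Real.sqrt (C * A + 1) := by
          rw [Finset.sum_const, Finset.card_univ, Fintype.card_fin, nsmul_eq_mul, hDdef]; ring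
  have hfin : ε / 2 * A ≤ D * Real.sqrt (C * A + 1) := hlow.trans hup2
  have hCA : 0 ≤ C * A + 1 := by positivity
  have hsq : (ε / 2 * A) ^ 2 ≤ (D * Real.sqrt (C * A + 1)) ^ 2 :=
    pow_le_pow_left₀ (by positivity) hfin 2
  rw [mul_pow D, Real.sq_sqrt hCA] at hsq
  linarith

end Main

end Pool.Agent.Helper55.WH
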