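import Mathlib
import Pool.Agent.Helper55.WH.Block2

set_option autoImplicit false

open Filter Topology
open scoped InnerProductSpace

namespace Pool.Agent.Helper55.WH

/-- `T` is weakly hypercyclic: some orbit `{T^n x : n ≥ 0}` is dense in the weak topology. -/
def WeaklyHypercyclic {X : Type*} [NormedAddCommGroup X] [NormedSpace ℂ X] (T : X →L[ℂ] X) :
    Prop :=
  ∃ x : X, Dense (Set.range fun n : ℕ => toWeakSpace ℂ X ((T ^ n) x))

section

variable {H : Type*} [NormedAddCommGroup H] [InnerProductSpace ℂ H]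

/-- The finite block property of an operator. -/
def BlockProp (T : H →L[ℂ] H) : Prop :=
  ∀ (f₀ v : H) (η ε R : ℝ), 0 < η → 0 < ε → 0 ≤ R → ∀ r : ℕ,
    ∃ f, ‖f - f₀‖ < η ∧ ∃ N : ℕ, ∀ u : Fin r → H, (∀ l, ‖u l‖ ≤ R) →
      ∃ n ≤ N, ∀ l, ‖⟪u l, (T ^ n) f - v⟫_ℂ‖ < ε

/-- The set of pairs (parameter, vector) whose orbit meets the requirement with label `(v, m)`. -/
def goodSet {X : Type*} (T : X → (H →L[ℂ] H)) (v : H) (m : ℕ) : Set (X × H) :=
  {p | ∃ N : ℕ, ∀ u : Fin m → H, (∀ l, ‖u l‖ ≤ m) →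
    ∃ n ≤ N, ∀ l, ‖⟪u l, ((T p.1) ^ n) p.2 - v⟫_ℂ‖ < 1 / ((m : ℝ) + 1)}

lemma dense_interior_goodSet {X : Type*} [TopologicalSpace X] (T : X → (H →L[ℂ] H))
    (hT : Continuous T) (S : Set X) (hS : Dense S) (hB : ∀ a ∈ S, BlockProp (T a)) (v : H)
    (m : ℕ) : Dense (interior (goodSet T v m)) := by
  rw [dense_iff_inter_open]
  rintro U hU ⟨⟨a₀, f₀⟩, ha₀⟩
  obtain ⟨V, W, hV, hW, haV, hfW, hVW⟩ := isOpen_prod_iff.1 hU a₀ f₀ ha₀
  obtain ⟨a, haV', haS⟩ := hS.inter_open_nonempty V hV ⟨a₀, haV⟩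
  obtain ⟨η, hη, hηW⟩ := Metric.isOpen_iff.1 hW f₀ hfW
  have hm1 : (0 : ℝ) < (m : ℝ) + 1 := by positivity
  obtain ⟨f, hf, N, hN⟩ := hB a haS f₀ v η (1 / (2 * ((m : ℝ) + 1))) m hη (by positivity)
    (Nat.cast_nonneg m) m
  refine ⟨(a, f), hVW ⟨haV', hηW ?_⟩, ?_⟩
  · rw [Metric.mem_ball, dist_eq_norm]; exact hf
  rw [mem_interior_iff_mem_nhds]
  have hcont : ∀ n : ℕ, Continuous fun p : X × H => ((T p.1) ^ n) p.2 := by
    intro n
    exact ((hT.comp continuous_fst).pow n).clm_apply continuous_snd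
  have hev : ∀ᶠ p : X × H in 𝓝 (a, f), ∀ n ≤ N,
      ‖((T p.1) ^ n) p.2 - ((T a) ^ n) f‖ < 1 / (2 * ((m : ℝ) + 1) * ((m : ℝ) + 1)) := by
    have : ∀ n ≤ N, ∀ᶠ p : X × H in 𝓝 (a, f),
        ‖((T p.1) ^ n) p.2 - ((T a) ^ n) f‖ < 1 / (2 * ((m : ℝ) + 1) * ((m : ℝ) + 1)) := by
      intro n _
      have h1 : Tendsto (fun p : X × H => ‖((T p.1) ^ n) p.2 - ((T a) ^ n) f‖) (𝓝 (a, f))
          (𝓝 ‖((T a) ^ n) f - ((T a) ^ n) f‖) :=
        ((hcont n).sub continuous_const).norm.tendsto (a, f)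
      rw [sub_self, norm_zero] at h1
      exact h1.eventually (gt_mem_nhds (by positivity))
    exact (Set.finite_le_nat N).eventually_all.2 this
  filter_upwards [hev] with p hp
  refine ⟨N, fun u hu => ?_⟩
  obtain ⟨n, hnN, hn⟩ := hN u hu
  refine ⟨n, hnN, fun l => ?_⟩
  have e1 : ((T p.1) ^ n) p.2 - v = (((T p.1) ^ n) p.2 - ((T a) ^ n) f) + (((T a) ^ n) f - v) := by
    abel
  rw [e1, inner_add_right]
  have e2 : ‖⟪u l, ((T p.1) ^ n) p.2 - ((T a) ^ n) f⟫_ℂ‖ ≤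
      (m + 1) * (1 / (2 * ((m : ℝ) + 1) * ((m : ℝ) + 1))) := by
    refine (norm_inner_le_norm _ _).trans ?_
    exact mul_le_mul ((hu l).trans (by linarith)) (hp n hnN).le (norm_nonneg _) hm1.le
  have e3 : ((m : ℝ) + 1) * (1 / (2 * ((m : ℝ) + 1) * ((m : ℝ) + 1))) =
      1 / (2 * ((m : ℝ) + 1)) := by
    field_simp
  have e4 : 1 / (2 * ((m : ℝ) + 1)) + 1 / (2 * ((m : ℝ) + 1)) = 1 / ((m : ℝ) + 1) := by
    field_simp; ring
  calc ‖⟪u l, ((T p.1) ^ n) p.2 - ((T a) ^ n) f⟫_ℂ + ⟪u l, ((T a) ^ n) f - v⟫_ℂ‖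
      ≤ ‖⟪u l, ((T p.1) ^ n) p.2 - ((T a) ^ n) f⟫_ℂ‖ + ‖⟪u l, ((T a) ^ n) f - v⟫_ℂ‖ :=
        norm_add_le _ _
    _ < 1 / (2 * ((m : ℝ) + 1)) + 1 / (2 * ((m : ℝ) + 1)) :=
        add_lt_add_of_le_of_lt (e2.trans e3.le) (hn l)
    _ = _ := e4

/-- Density in the weak topology follows from approximation on finitely many vectors. -/
lemma dense_weak [CompleteSpace H] (s : ℕ → H)
    (h : ∀ (v : H) (r : ℕ) (u : Fin r → H) (ε : ℝ), 0 < ε →
      ∃ n, ∀ l, ‖⟪u l, s n - v⟫_ℂ‖ < ε) :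
    Dense (Set.range fun n : ℕ => toWeakSpace ℂ H (s n)) := by
  rw [dense_iff_inter_open]
  rintro U hU ⟨v, hv⟩
  obtain ⟨V, hV, rfl⟩ := isOpen_induced_iff.1 hU
  obtain ⟨I, w, hw, hsub⟩ := isOpen_pi_iff.1 hV _ hv
  -- choose epsilon
  have hε : ∃ ε > 0, ∀ φ ∈ I, Metric.ball (((topDualPairing ℂ H).flip v) φ) ε ⊆ w φ := by
    have : ∀ φ ∈ I, ∃ ε > 0, Metric.ball (((topDualPairing ℂ H).flip v) φ) ε ⊆ w φ := by
      intro φ hφ
      exact Metric.isOpen_iff.1 (hw φ hφ).1 _ (hw φ hφ).2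
    choose! e he1 he2 using this
    by_cases hI : I.Nonempty
    · refine ⟨I.inf' hI e, ?_, ?_⟩
      · rw [gt_iff_lt, Finset.lt_inf'_iff]
        exact he1
      · intro φ hφ
        exact (Metric.ball_subset_ball (Finset.inf'_le _ hφ)).trans (he2 φ hφ)
    · refine ⟨1, one_pos, fun φ hφ => absurd ⟨φ, hφ⟩ hI⟩
  obtain ⟨ε, hε, hball⟩ := hε
  let e := I.equivFin
  obtain ⟨n, hn⟩ := h ((toWeakSpace ℂ H).symm v) I.card
    (fun l => (InnerProductSpace.toDual ℂ H).symm ((e.symm l : StrongDual ℂ H))) ε hε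
  refine ⟨toWeakSpace ℂ H (s n), ?_, ⟨n, rfl⟩⟩
  apply hsub
  intro φ hφ
  apply hball φ hφ
  have h2 := hn (e ⟨φ, hφ⟩)
  rw [Equiv.symm_apply_apply, InnerProductSpace.toDual_symm_apply, map_sub] at h2
  rw [Metric.mem_ball, dist_eq_norm]
  exact h2

/-- Baire category argument: if the block property holds on a dense set of parameters, then for
generic parameters the operator is weakly hypercyclic. -/
theorem exists_weaklyHypercyclic [CompleteSpace H] [TopologicalSpace.SeparableSpace H]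
    {X : Type*} [MetricSpace X] [CompleteSpace X] [Nonempty X] (T : X → (H →L[ℂ] H))
    (hT : Continuous T) (S : Set X) (hS : Dense S) (hB : ∀ a ∈ S, BlockProp (T a))
    (D : ℕ → Set X) (hDo : ∀ k, IsOpen (D k)) (hDd : ∀ k, Dense (D k)) :
    ∃ a, (∀ k, a ∈ D k) ∧ WeaklyHypercyclic (T a) := by
  have hdense : Dense (⋂ k : ℕ, (interior (goodSet T
      (TopologicalSpace.denseSeq H k.unpair.1) k.unpair.2) ∩ (Prod.fst ⁻¹' (D k)))) := by
    apply dense_iInter_of_isOpen_nat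
    · intro k
      exact isOpen_interior.inter ((hDo k).preimage continuous_fst)
    · intro k
      refine (dense_interior_goodSet T hT S hS hB _ _).inter_of_isOpen_left ?_ isOpen_interior
      exact (hDd k).preimage isOpenMap_fst
  obtain ⟨⟨a, f⟩, haf⟩ := hdense.nonempty
  rw [Set.mem_iInter] at haf
  refine ⟨a, fun k => (haf k).2, f, dense_weak _ ?_⟩
  intro v r u ε hε
  -- choose the label
  obtain ⟨m, hm⟩ : ∃ m : ℕ, (r : ℝ) ≤ m ∧ (∀ l, ‖u l‖ ≤ m) ∧ 2 / ε < m := by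
    obtain ⟨m, hm⟩ := exists_nat_gt (r + (∑ l, ‖u l‖) + 2 / ε)
    have h1 : 0 ≤ ∑ l, ‖u l‖ := Finset.sum_nonneg fun _ _ => norm_nonneg _
    have h2 : 0 < 2 / ε := by positivity
    have h3 : (0 : ℝ) ≤ r := Nat.cast_nonneg r
    refine ⟨m, by linarith, fun l => ?_, by linarith⟩
    have := Finset.single_le_sum (f := fun l => ‖u l‖) (fun _ _ => norm_nonneg _)
      (Finset.mem_univ l)
    linarith
  obtain ⟨hm1, hm2, hm3⟩ := hm
  have hmpos : (0 : ℝ) < m := lt_trans (by positivity) hm3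
  obtain ⟨i, hi⟩ : ∃ i, ‖TopologicalSpace.denseSeq H i - v‖ < ε / (2 * m) := by
    have := (TopologicalSpace.denseRange_denseSeq H).exists_dist_lt v
      (show 0 < ε / (2 * m) by positivity)
    obtain ⟨i, hi⟩ := this
    refine ⟨i, ?_⟩
    rw [dist_comm, dist_eq_norm] at hi
    exact hi
  have hgood := interior_subset (haf (Nat.pair i m)).1
  rw [Nat.unpair_pair] at hgood
  obtain ⟨N, hN⟩ := hgood
  have hrm : r ≤ m := by exact_mod_cast hm1
  obtain ⟨n, -, hn⟩ := hN (fun l => if hl : (l : ℕ) < r then u ⟨l, hl⟩ else 0) (by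
    intro l
    by_cases hl : (l : ℕ) < r
    · simp only [hl, dif_pos]; exact hm2 _
    · simp only [hl, dif_neg, not_false_eq_true, norm_zero]; exact hmpos.le)
  refine ⟨n, fun l => ?_⟩
  have hn' := hn ⟨l, lt_of_lt_of_le l.2 hrm⟩
  simp only [l.2, dif_pos] at hn'
  have e1 : ((T a) ^ n) f - v = (((T a) ^ n) f - TopologicalSpace.denseSeq H i) +
      (TopologicalSpace.denseSeq H i - v) := by abel
  rw [e1, inner_add_right]
  have e2 : ‖⟪u l, TopologicalSpace.denseSeq H i - v⟫_ℂ‖ ≤ m * (ε / (2 * m)) :=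
    (norm_inner_le_norm _ _).trans (mul_le_mul (hm2 l) hi.le (norm_nonneg _) hmpos.le)
  have e3 : (m : ℝ) * (ε / (2 * m)) = ε / 2 := by field_simp
  have e4 : 1 / ((m : ℝ) + 1) ≤ ε / 2 := by
    rw [div_le_div_iff₀ (by positivity) (by positivity)]
    rw [div_lt_iff₀ hε] at hm3
    nlinarith
  calc ‖⟪u l, ((T a) ^ n) f - TopologicalSpace.denseSeq H i⟫_ℂ +
        ⟪u l, TopologicalSpace.denseSeq H i - v⟫_ℂ‖
      ≤ ‖⟪u l, ((T a) ^ n) f - TopologicalSpace.denseSeq H i⟫_ℂ‖ +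
        ‖⟪u l, TopologicalSpace.denseSeq H i - v⟫_ℂ‖ := norm_add_le _ _
    _ < ε / 2 + ε / 2 := add_lt_add_of_lt_of_le (hn'.trans_le e4) (e2.trans e3.le)
    _ = ε := by ring

end

end Pool.Agent.Helper55.WH
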