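import Mathlib

set_option autoImplicit false

open Filter Topology

namespace Pool.Agent.Helper55.WH

section SumCLM

variable {𝕜 : Type*} [NontriviallyNormedField 𝕜]

lemma summable_norm_l1 (c : lp (fun _ : ℕ => 𝕜) 1) : Summable fun n => ‖c n‖ := by
  have := (lp.memℓp c).summable (by simp)
  simpa using this

lemma norm_l1_eq (c : lp (fun _ : ℕ => 𝕜) 1) : ‖c‖ = ∑' n, ‖c n‖ := by
  have := lp.norm_eq_tsum_rpow (p := 1) (by simp) c
  simpa using this

variable {E : Type*} [NormedAddCommGroup E] [NormedSpace 𝕜 E] [CompleteSpace E]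

lemma summable_smul_l1 (c : lp (fun _ : ℕ => 𝕜) 1) (x : ℕ → E) (C : ℝ) (hx : ∀ n, ‖x n‖ ≤ C) :
    Summable fun n => ‖c n • x n‖ := by
  refine Summable.of_nonneg_of_le (fun _ => norm_nonneg _) (fun n => ?_)
    ((summable_norm_l1 c).mul_right C)
  rw [norm_smul]
  exact mul_le_mul_of_nonneg_left (hx n) (norm_nonneg _)

/-- The continuous linear map `c ↦ ∑ c_n x_n` on `ℓ¹` attached to a bounded sequence. -/
noncomputable def sumCLM (x : ℕ → E) (C : ℝ) (hx : ∀ n, ‖x n‖ ≤ C) :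
    lp (fun _ : ℕ => 𝕜) 1 →L[𝕜] E :=
  LinearMap.mkContinuous
    { toFun := fun c => ∑' n, c n • x n
      map_add' := by
        intro c d
        rw [← Summable.tsum_add (summable_smul_l1 c x C hx).of_norm
          (summable_smul_l1 d x C hx).of_norm]
        refine tsum_congr fun n => ?_
        rw [lp.coeFn_add, ← add_smul]; rfl
      map_smul' := by
        intro r c
        rw [RingHom.id_apply, ← Summable.tsum_const_smul r (summable_smul_l1 c x C hx).of_norm]
        refine tsum_congr fun n => ?_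
        rw [lp.coeFn_smul, smul_smul]; rfl }
    C
    (by
      intro c
      change ‖∑' n, c n • x n‖ ≤ C * ‖c‖
      refine (norm_tsum_le_tsum_norm (summable_smul_l1 c x C hx)).trans ?_
      rw [norm_l1_eq, ← tsum_mul_left]
      refine Summable.tsum_le_tsum (fun n => ?_) (summable_smul_l1 c x C hx)
        ((summable_norm_l1 c).mul_left C)
      rw [norm_smul, mul_comm]
      exact mul_le_mul_of_nonneg_right (hx n) (norm_nonneg _))

lemma sumCLM_apply (x : ℕ → E) (C : ℝ) (hx : ∀ n, ‖x n‖ ≤ C) (c : lp (fun _ : ℕ => 𝕜) 1) :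
    sumCLM x C hx c = ∑' n, c n • x n := rfl

lemma hasSum_sumCLM (x : ℕ → E) (C : ℝ) (hx : ∀ n, ‖x n‖ ≤ C) (c : lp (fun _ : ℕ => 𝕜) 1) :
    HasSum (fun n => c n • x n) (sumCLM x C hx c) :=
  (summable_smul_l1 c x C hx).of_norm.hasSum

lemma norm_sumCLM_apply_le (x : ℕ → E) (C : ℝ) (hx : ∀ n, ‖x n‖ ≤ C)
    (c : lp (fun _ : ℕ => 𝕜) 1) : ‖sumCLM x C hx c‖ ≤ C * ‖c‖ := by
  rw [sumCLM_apply]
  refine (norm_tsum_le_tsum_norm (summable_smul_l1 c x C hx)).trans ?_
  rw [norm_l1_eq, ← tsum_mul_left]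
  refine Summable.tsum_le_tsum (fun n => ?_) (summable_smul_l1 c x C hx)
    ((summable_norm_l1 c).mul_left C)
  rw [norm_smul, mul_comm]
  exact mul_le_mul_of_nonneg_right (hx n) (norm_nonneg _)

/-- A continuous linear map pushes `sumCLM` forward. -/
lemma map_sumCLM {F : Type*} [NormedAddCommGroup F] [NormedSpace 𝕜 F] [CompleteSpace F]
    (Φ : E →L[𝕜] F) (x : ℕ → E) (C : ℝ) (hx : ∀ n, ‖x n‖ ≤ C) (C' : ℝ)
    (hx' : ∀ n, ‖Φ (x n)‖ ≤ C') (c : lp (fun _ : ℕ => 𝕜) 1) :
    Φ (sumCLM x C hx c) = sumCLM (fun n => Φ (x n)) C' hx' c := by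
  have h1 := (hasSum_sumCLM x C hx c).mapL Φ
  have h2 := hasSum_sumCLM (fun n => Φ (x n)) C' hx' c
  simp only [map_smul] at h1
  exact h1.unique h2

end SumCLM

end Pool.Agent.Helper55.WH
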