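import Mathlib
import Pool.Agent.Helper55.WH.SumCLM
import Pool.Agent.Helper55.WH.Baire

set_option autoImplicit false

open Filter Topology MeasureTheory AddCircle
open scoped InnerProductSpace ENNReal

namespace Pool.Agent.Helper55.WH

/-- The circle `ℝ / ℤ`. -/
abbrev Tor : Type := AddCircle (1 : ℝ)

/-- `L²` of the circle with normalised Lebesgue measure. -/
abbrev L2 : Type := Lp ℂ 2 (haarAddCircle : Measure Tor)

/-- Multiplication by a continuous function, as a bounded operator on `L²`. -/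
noncomputable def mulL : C(Tor, ℂ) →L[ℂ] (L2 →L[ℂ] L2) :=
  ((ContinuousLinearMap.mul ℂ ℂ).holderL (haarAddCircle : Measure Tor) ∞ 2 2).comp
    (ContinuousMap.toLp ∞ (haarAddCircle : Measure Tor) ℂ)

lemma mulL_coe (c : C(Tor, ℂ)) (f : L2) :
    (mulL c f : Tor → ℂ) =ᵐ[haarAddCircle] fun x => c x * f x := by
  have h1 := (ContinuousLinearMap.mul ℂ ℂ).coeFn_holder (r := 2)
    (ContinuousMap.toLp ∞ (haarAddCircle : Measure Tor) ℂ c) f
  have h2 := ContinuousMap.coeFn_toLp (p := ∞) (𝕜 := ℂ) (haarAddCircle : Measure Tor) c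
  have h3 : mulL c f = (ContinuousLinearMap.mul ℂ ℂ).holder 2
    (ContinuousMap.toLp ∞ (haarAddCircle : Measure Tor) ℂ c) f := rfl
  rw [h3]
  filter_upwards [h1, h2] with x hx1 hx2
  rw [hx1, hx2]
  rfl

lemma mulL_norm_le (c : C(Tor, ℂ)) (f : L2) : ‖mulL c f‖ ≤ ‖c‖ * ‖f‖ := by
  refine Lp.norm_le_mul_norm_of_ae_le_mul ?_
  filter_upwards [mulL_coe c f] with x hx
  rw [hx, norm_mul]
  exact mul_le_mul_of_nonneg_right (c.norm_coe_le_norm x) (norm_nonneg _)

/-- A refined norm bound: it is enough to bound the multiplier where `f` does not vanish. -/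
lemma mulL_norm_le_of_ae (c : C(Tor, ℂ)) (f : L2) (k : ℝ)
    (h : ∀ᵐ x ∂(haarAddCircle : Measure Tor), f x ≠ 0 → ‖c x‖ ≤ k) :
    ‖mulL c f‖ ≤ k * ‖f‖ := by
  refine Lp.norm_le_mul_norm_of_ae_le_mul ?_
  filter_upwards [mulL_coe c f, h] with x hx hk
  rw [hx, norm_mul]
  by_cases hf : f x = 0
  · simp [hf]
  · exact mul_le_mul_of_nonneg_right (hk hf) (norm_nonneg _)

lemma mulL_mul (c d : C(Tor, ℂ)) : mulL (c * d) = mulL c * mulL d := by
  ext1 f
  apply Lp.ext
  have h1 := mulL_coe (c * d) f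
  have h2 := mulL_coe c (mulL d f)
  have h3 := mulL_coe d f
  change _ =ᵐ[_] ((mulL c (mulL d f) : L2) : Tor → ℂ)
  filter_upwards [h1, h2, h3] with x hx1 hx2 hx3
  rw [hx1, hx2, hx3]
  simp [mul_assoc]

lemma mulL_one : mulL 1 = 1 := by
  ext1 f
  apply Lp.ext
  have h1 := mulL_coe 1 f
  filter_upwards [h1] with x hx1
  rw [hx1]
  simp

/-- `mulL` as an algebra homomorphism. -/
noncomputable def mulAlg : C(Tor, ℂ) →ₐ[ℂ] (L2 →L[ℂ] L2) :=
  AlgHom.ofLinearMap (mulL : C(Tor, ℂ) →ₗ[ℂ] (L2 →L[ℂ] L2)) mulL_one mulL_mul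

lemma mulAlg_apply (c : C(Tor, ℂ)) : mulAlg c = mulL c := rfl

lemma mulL_pow (c : C(Tor, ℂ)) (n : ℕ) : mulL (c ^ n) = (mulL c) ^ n := by
  simpa only [mulAlg_apply] using map_pow mulAlg c n

lemma mulL_exp (c : C(Tor, ℂ)) : mulL (NormedSpace.exp c) = NormedSpace.exp (mulL c) := by
  have := NormedSpace.map_exp (mulAlg : C(Tor, ℂ) →ₐ[ℂ] (L2 →L[ℂ] L2)) mulL.continuous c
  simpa only [mulAlg_apply] using this

lemma exp_apply_C (c : C(Tor, ℂ)) (x : Tor) : (NormedSpace.exp c) x = Complex.exp (c x) := by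
  have h := NormedSpace.map_exp (ContinuousMap.evalAlgHom ℂ ℂ x : C(Tor, ℂ) →ₐ[ℂ] ℂ)
    (continuous_eval_const x) c
  rw [Complex.exp_eq_exp_ℂ]
  exact h

lemma mulL_inner (c : C(Tor, ℂ)) (f g : L2) : ⟪mulL c f, g⟫_ℂ = ⟪f, mulL (star c) g⟫_ℂ := by
  rw [L2.inner_def, L2.inner_def]
  apply integral_congr_ae
  filter_upwards [mulL_coe c f, mulL_coe (star c) g] with x hx1 hx2
  rw [hx1, hx2]
  simp only [RCLike.inner_apply, map_mul, ContinuousMap.star_apply, RCLike.star_def]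
  ring

lemma adjoint_mulL (c : C(Tor, ℂ)) :
    ContinuousLinearMap.adjoint (mulL c) = mulL (star c) := by
  symm
  rw [ContinuousLinearMap.eq_adjoint_iff]
  intro x y
  rw [mulL_inner, star_star]

/-- Fourier coefficient as an inner product. -/
lemma fourierCoeff_eq_inner (f : L2) (n : ℤ) :
    fourierCoeff (f : Tor → ℂ) n = ⟪fourierLp 2 n, f⟫_ℂ := by
  rw [← fourierBasis_repr, HilbertBasis.repr_apply_apply, coe_fourierBasis]

lemma mulL_fourier_fourierLp (k n : ℤ) :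
    mulL (fourier k) (fourierLp 2 n) = fourierLp 2 (k + n) := by
  apply Lp.ext
  filter_upwards [mulL_coe (fourier k) (fourierLp 2 n), coeFn_fourierLp (T := 1) 2 n,
    coeFn_fourierLp (T := 1) 2 (k + n)] with x h1 h2 h3
  rw [h1, h2, h3, fourier_add]

lemma star_fourier (k : ℤ) : star (fourier k : C(Tor, ℂ)) = fourier (-k) := by
  ext x
  rw [ContinuousMap.star_apply, fourier_neg]
  rfl

lemma fourierCoeff_mulL_fourier (k n : ℤ) (f : L2) :
    fourierCoeff (mulL (fourier k) f : Tor → ℂ) n = fourierCoeff (f : Tor → ℂ) (n - k) := by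
  rw [fourierCoeff_eq_inner, fourierCoeff_eq_inner]
  have h := mulL_inner (fourier (-k)) (fourierLp 2 n) f
  rw [star_fourier, neg_neg, mulL_fourier_fourierLp] at h
  rw [← h]
  congr 2
  ring

/-- Functions in `L²` whose Fourier coefficients of index `< m` vanish. -/
noncomputable def Lge (m : ℤ) : Submodule ℂ L2 where
  carrier := {f | ∀ n : ℤ, n < m → fourierCoeff (f : Tor → ℂ) n = 0}
  add_mem' := by
    intro f g hf hg n hn
    have h1 := hf n hn
    have h2 := hg n hn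
    rw [fourierCoeff_eq_inner] at h1 h2 ⊢
    rw [inner_add_right, h1, h2, add_zero]
  zero_mem' := by
    intro n _
    rw [fourierCoeff_eq_inner, inner_zero_right]
  smul_mem' := by
    intro c f hf n hn
    have h1 := hf n hn
    rw [fourierCoeff_eq_inner] at h1 ⊢
    rw [inner_smul_right, h1, mul_zero]

lemma mem_Lge {m : ℤ} {f : L2} :
    f ∈ Lge m ↔ ∀ n : ℤ, n < m → fourierCoeff (f : Tor → ℂ) n = 0 := Iff.rfl

lemma isClosed_Lge (m : ℤ) : IsClosed (Lge m : Set L2) := by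
  have : (Lge m : Set L2) = ⋂ (n : ℤ) (_ : n < m), {f : L2 | ⟪fourierLp 2 n, f⟫_ℂ = 0} := by
    ext f
    simp only [SetLike.mem_coe, mem_Lge, Set.mem_iInter, Set.mem_ofPred_eq, fourierCoeff_eq_inner]
  rw [this]
  refine isClosed_iInter fun n => isClosed_iInter fun _ => ?_
  exact isClosed_eq (continuous_const.inner continuous_id) continuous_const

lemma Lge_mono {m m' : ℤ} (h : m ≤ m') : Lge m' ≤ Lge m :=
  fun _ hf n hn => hf n (lt_of_lt_of_le hn h)

lemma mulL_fourier_mem {m : ℤ} (k : ℤ) {f : L2} (hf : f ∈ Lge m) :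
    mulL (fourier k) f ∈ Lge (k + m) := by
  intro n hn
  rw [fourierCoeff_mulL_fourier]
  exact hf _ (by omega)

lemma norm_fourier_le (n : ℕ) : ‖(fourier (n : ℤ) : C(Tor, ℂ))‖ ≤ 1 := (fourier_norm _).le

/-- The boundary function `∑ γ_n e_n` attached to an absolutely summable sequence. -/
noncomputable def bdry : lp (fun _ : ℕ => ℂ) 1 →L[ℂ] C(Tor, ℂ) :=
  sumCLM (fun n : ℕ => (fourier (n : ℤ) : C(Tor, ℂ))) 1 norm_fourier_le

lemma hasSum_bdry (c : lp (fun _ : ℕ => ℂ) 1) :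
    HasSum (fun n : ℕ => c n • (fourier (n : ℤ) : C(Tor, ℂ))) (bdry c) :=
  hasSum_sumCLM _ _ _ _

lemma hasSum_bdry_apply (c : lp (fun _ : ℕ => ℂ) 1) (x : Tor) :
    HasSum (fun n : ℕ => c n * (fourier (n : ℤ) x : ℂ)) (bdry c x) := by
  have := (hasSum_bdry c).mapL (ContinuousMap.evalCLM ℂ x : C(Tor, ℂ) →L[ℂ] ℂ)
  simpa using this

lemma mulL_bdry_mem (c : lp (fun _ : ℕ => ℂ) 1) {m : ℤ} {f : L2} (hf : f ∈ Lge m) :
    mulL (bdry c) f ∈ Lge m := by
  have h := (hasSum_bdry c).mapL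
    ((ContinuousLinearMap.apply ℂ L2 f).comp (mulL : C(Tor, ℂ) →L[ℂ] (L2 →L[ℂ] L2)))
  simp only [map_smul] at h
  refine (isClosed_Lge m).mem_of_tendsto h (Eventually.of_forall fun s => ?_)
  refine Submodule.sum_mem _ fun n _ => Submodule.smul_mem _ _ ?_
  exact Lge_mono (by omega) (mulL_fourier_mem (n : ℤ) hf)

lemma mulL_bdry_mem_succ (c : lp (fun _ : ℕ => ℂ) 1) (hc : c 0 = 0) {m : ℤ} {f : L2}
    (hf : f ∈ Lge m) : mulL (bdry c) f ∈ Lge (m + 1) := by
  have h := (hasSum_bdry c).mapL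
    ((ContinuousLinearMap.apply ℂ L2 f).comp (mulL : C(Tor, ℂ) →L[ℂ] (L2 →L[ℂ] L2)))
  simp only [map_smul] at h
  refine (isClosed_Lge _).mem_of_tendsto h (Eventually.of_forall fun s => ?_)
  refine Submodule.sum_mem _ fun n _ => ?_
  rcases Nat.eq_zero_or_pos n with rfl | hn
  · rw [hc, zero_smul]; exact Submodule.zero_mem _
  · refine Submodule.smul_mem _ _ ?_
    exact Lge_mono (by omega) (mulL_fourier_mem (n : ℤ) hf)

end Pool.Agent.Helper55.WH
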