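import Mathlib
import Pool.Agent.Helper55.WH.Circle

set_option autoImplicit false

open Filter Topology MeasureTheory AddCircle
open scoped InnerProductSpace ENNReal

namespace Pool.Agent.Helper55.WH

section General

lemma exp_intertwine {E F : Type*} [NormedAddCommGroup E] [NormedSpace ℂ E] [CompleteSpace E]
    [NormedAddCommGroup F] [NormedSpace ℂ F] [CompleteSpace F] (i : E →L[ℂ] F)
    (A : E →L[ℂ] E) (B : F →L[ℂ] F) (h : ∀ x, i (A x) = B (i x)) (x : E) :
    i ((NormedSpace.exp A) x) = (NormedSpace.exp B) (i x) := by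
  have hp : ∀ n : ℕ, ∀ x, i ((A ^ n) x) = (B ^ n) (i x) := by
    intro n
    induction n with
    | zero => intro x; simp
    | succ n ih =>
      intro x
      rw [pow_succ, pow_succ]
      change i ((A ^ n) (A x)) = (B ^ n) (B (i x))
      rw [ih, h]
  have h1 := (NormedSpace.exp_series_hasSum_exp' (𝕂 := ℂ) A).mapL
    (i.comp (ContinuousLinearMap.apply ℂ E x) : (E →L[ℂ] E) →L[ℂ] F)
  have h2 := (NormedSpace.exp_series_hasSum_exp' (𝕂 := ℂ) B).mapL
    (ContinuousLinearMap.apply ℂ F (i x) : (F →L[ℂ] F) →L[ℂ] F)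
  have h3 : (fun n : ℕ => (i.comp (ContinuousLinearMap.apply ℂ E x) : (E →L[ℂ] E) →L[ℂ] F)
      (((n.factorial : ℂ)⁻¹) • A ^ n)) = fun n : ℕ =>
      (ContinuousLinearMap.apply ℂ F (i x) : (F →L[ℂ] F) →L[ℂ] F)
      (((n.factorial : ℂ)⁻¹) • B ^ n) := by
    funext n
    simp only [map_smul]
    congr 1
    exact hp n x
  rw [h3] at h1
  exact h1.unique h2

lemma strong_of_dense {E : Type*} [NormedAddCommGroup E] [NormedSpace ℂ E] (A : ℕ → E →L[ℂ] E)
    (hA : ∀ n x, ‖A n x‖ ≤ ‖x‖) (s : Set E) (hs : Dense s)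
    (h : ∀ x ∈ s, Tendsto (fun n => A n x) atTop (𝓝 0)) (x : E) :
    Tendsto (fun n => A n x) atTop (𝓝 0) := by
  rw [Metric.tendsto_atTop]
  intro ε hε
  obtain ⟨y, hy, hys⟩ := Metric.dense_iff.1 hs x (ε / 2) (by positivity)
  obtain ⟨N, hN⟩ := Metric.tendsto_atTop.1 (h y hys) (ε / 2) (by positivity)
  refine ⟨N, fun n hn => ?_⟩
  have h1 := hN n hn
  rw [dist_zero_right] at h1 ⊢
  have h2 : ‖A n (x - y)‖ ≤ ‖x - y‖ := hA n _
  have h3 : ‖x - y‖ < ε / 2 := by
    rw [Metric.mem_ball, dist_comm, dist_eq_norm] at hy; exact hy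
  calc ‖A n x‖ = ‖A n (x - y) + A n y‖ := by rw [map_sub]; congr 1; abel
    _ ≤ ‖A n (x - y)‖ + ‖A n y‖ := norm_add_le _ _
    _ < ε / 2 + ε / 2 := by linarith
    _ = ε := by ring

lemma weak_of_span {E : Type*} [NormedAddCommGroup E] [InnerProductSpace ℂ E]
    (A : ℕ → E →L[ℂ] E) (hA : ∀ n x, ‖A n x‖ ≤ ‖x‖) (s : Set E)
    (hs : (Submodule.span ℂ s).topologicalClosure = ⊤) (y : E)
    (h : ∀ x ∈ s, Tendsto (fun n => ⟪A n x, y⟫_ℂ) atTop (𝓝 0)) (x : E) :
    Tendsto (fun n => ⟪A n x, y⟫_ℂ) atTop (𝓝 0) := by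
  have hspan : ∀ x ∈ Submodule.span ℂ s, Tendsto (fun n => ⟪A n x, y⟫_ℂ) atTop (𝓝 0) := by
    intro x hx
    induction hx using Submodule.span_induction with
    | mem x hx => exact h x hx
    | zero => simp
    | add x z _ _ hx hz =>
      simp only [map_add, inner_add_left]
      simpa using hx.add hz
    | smul c x _ hx =>
      simp only [map_smul, inner_smul_left]
      simpa using hx.const_mul ((starRingEnd ℂ) c)
  have hd : Dense (Submodule.span ℂ s : Set E) := by
    rw [dense_iff_closure_eq, ← Submodule.topologicalClosure_coe, hs]; rfl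
  rw [Metric.tendsto_atTop]
  intro ε hε
  obtain ⟨z, hz, hzs⟩ := Metric.dense_iff.1 hd x (ε / (2 * (‖y‖ + 1))) (by positivity)
  obtain ⟨N, hN⟩ := Metric.tendsto_atTop.1 (hspan z hzs) (ε / 2) (by positivity)
  refine ⟨N, fun n hn => ?_⟩
  have h1 := hN n hn
  rw [dist_zero_right] at h1 ⊢
  have h3 : ‖x - z‖ < ε / (2 * (‖y‖ + 1)) := by
    rw [Metric.mem_ball, dist_comm, dist_eq_norm] at hz; exact hz
  have h2 : ‖⟪A n (x - z), y⟫_ℂ‖ ≤ ε / 2 := by
    refine (norm_inner_le_norm _ _).trans ?_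
    calc ‖A n (x - z)‖ * ‖y‖ ≤ (ε / (2 * (‖y‖ + 1))) * (‖y‖ + 1) :=
          mul_le_mul ((hA n _).trans h3.le) (by linarith) (norm_nonneg _) (by positivity)
      _ = ε / 2 := by field_simp
  calc ‖⟪A n x, y⟫_ℂ‖ = ‖⟪A n (x - z), y⟫_ℂ + ⟪A n z, y⟫_ℂ‖ := by
        rw [← inner_add_left, ← map_add]; congr 3; abel
    _ ≤ ‖⟪A n (x - z), y⟫_ℂ‖ + ‖⟪A n z, y⟫_ℂ‖ := norm_add_le _ _
    _ < ε / 2 + ε / 2 := by linarith
    _ = ε := by ring

end General

/-- The Hardy space as a closed subspace of `L²` (a type synonym, to have one set of instances). -/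
def HH : Type := ↥(Lge 0)

noncomputable instance : NormedAddCommGroup HH := inferInstanceAs (NormedAddCommGroup ↥(Lge 0))

noncomputable instance : InnerProductSpace ℂ HH := inferInstanceAs (InnerProductSpace ℂ ↥(Lge 0))

instance : CompleteSpace HH := (isClosed_Lge 0).completeSpace_coe

/-- The inclusion `H² → L²`. -/
noncomputable def incl : HH →ₗᵢ[ℂ] L2 := (Lge 0).subtypeₗᵢ

/-- Constructor for elements of `H²`. -/
def HH.mk (f : L2) (hf : f ∈ Lge 0) : HH := ⟨f, hf⟩

@[simp] lemma incl_mk (f : L2) (hf : f ∈ Lge 0) : incl (HH.mk f hf) = f := rfl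

lemma incl_mem (f : HH) : incl f ∈ Lge 0 := Subtype.property (p := fun x : L2 => x ∈ Lge 0) f

lemma mk_incl (f : HH) : HH.mk (incl f) (incl_mem f) = f := rfl

lemma incl_injective : Function.Injective incl := incl.injective

/-- Restriction to the Hardy space of an operator leaving it invariant. -/
noncomputable def restr (A : L2 →L[ℂ] L2) (hA : ∀ f ∈ Lge 0, A f ∈ Lge 0) : HH →L[ℂ] HH :=
  LinearMap.mkContinuous
    { toFun := fun f => HH.mk (A (incl f)) (hA _ (incl_mem f))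
      map_add' := fun f g => incl_injective (by simp)
      map_smul' := fun c f => incl_injective (by simp) }
    ‖A‖
    (fun f => by
      rw [← incl.norm_map, ← incl.norm_map f]
      exact A.le_opNorm _)

lemma incl_restr (A : L2 →L[ℂ] L2) (hA : ∀ f ∈ Lge 0, A f ∈ Lge 0) (f : HH) :
    incl (restr A hA f) = A (incl f) := rfl

/-- Multiplication by `e_n`, `n ≥ 0`, on the Hardy space. -/
noncomputable def Vn (n : ℕ) : HH →L[ℂ] HH :=
  restr (mulL (fourier (n : ℤ))) (fun _ hf => Lge_mono (by omega) (mulL_fourier_mem (n : ℤ) hf))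

lemma incl_Vn (n : ℕ) (f : HH) : incl (Vn n f) = mulL (fourier (n : ℤ)) (incl f) := rfl

lemma norm_Vn_le (n : ℕ) : ‖Vn n‖ ≤ 1 := by
  refine ContinuousLinearMap.opNorm_le_bound _ zero_le_one fun f => ?_
  rw [← incl.norm_map, ← incl.norm_map f, incl_Vn]
  refine (mulL_norm_le _ _).trans ?_
  exact mul_le_mul_of_nonneg_right (norm_fourier_le n) (norm_nonneg _)

/-- The analytic Toeplitz operator with symbol `∑ γ_n z^n`. -/
noncomputable def toep : lp (fun _ : ℕ => ℂ) 1 →L[ℂ] (HH →L[ℂ] HH) :=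
  sumCLM Vn 1 norm_Vn_le

lemma incl_toep (c : lp (fun _ : ℕ => ℂ) 1) (f : HH) :
    incl (toep c f) = mulL (bdry c) (incl f) := by
  have h1 := (hasSum_sumCLM Vn 1 norm_Vn_le c).mapL
    (incl.toContinuousLinearMap.comp (ContinuousLinearMap.apply ℂ HH f) : (HH →L[ℂ] HH) →L[ℂ] L2)
  have h2 := (hasSum_bdry c).mapL
    ((ContinuousLinearMap.apply ℂ L2 (incl f)).comp (mulL : C(Tor, ℂ) →L[ℂ] (L2 →L[ℂ] L2)))
  simp only [map_smul] at h1 h2
  exact h1.unique h2

lemma incl_exp_toep (c : lp (fun _ : ℕ => ℂ) 1) (f : HH) :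
    incl (NormedSpace.exp (toep c) f) = mulL (NormedSpace.exp (bdry c)) (incl f) := by
  rw [mulL_exp]
  exact exp_intertwine incl.toContinuousLinearMap (toep c) (mulL (bdry c))
    (fun x => incl_toep c x) f

/-- The orthogonal projection `L² → H²`, as the adjoint of the inclusion. -/
noncomputable def projH : L2 →L[ℂ] HH := ContinuousLinearMap.adjoint incl.toContinuousLinearMap

lemma projH_inner (x : L2) (u : HH) : ⟪projH x, u⟫_ℂ = ⟪x, incl u⟫_ℂ := by
  rw [projH, ContinuousLinearMap.adjoint_inner_left]; rfl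

lemma inner_projH (u : HH) (x : L2) : ⟪u, projH x⟫_ℂ = ⟪incl u, x⟫_ℂ := by
  rw [projH, ContinuousLinearMap.adjoint_inner_right]; rfl

/-- The adjoint of a restricted multiplication operator intertwines with the projection. -/
lemma adjoint_projH (A : HH →L[ℂ] HH) (c : C(Tor, ℂ)) (h : ∀ f : HH, incl (A f) = mulL c (incl f))
    (x : L2) : (ContinuousLinearMap.adjoint A) (projH x) = projH (mulL (star c) x) := by
  refine ext_inner_left ℂ fun u => ?_
  rw [ContinuousLinearMap.adjoint_inner_right, inner_projH, inner_projH, h, mulL_inner]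

end Pool.Agent.Helper55.WH
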