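import Mathlib
import Pool.Agent.Helper55.WH.Hardy

set_option autoImplicit false

open Filter Topology MeasureTheory AddCircle
open scoped InnerProductSpace ENNReal

namespace Pool.Agent.Helper55.WH

/-- Orthogonality of functions with disjoint spectra. -/
lemma inner_eq_zero_of_spectra {m : ℤ} {g f : L2} (hg : g ∈ Lge m)
    (hf : ∀ n : ℤ, m ≤ n → fourierCoeff (f : Tor → ℂ) n = 0) : ⟪g, f⟫_ℂ = 0 := by
  have h := (fourierBasis (T := 1)).hasSum_inner_mul_inner g f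
  have h0 : (fun i : ℤ => ⟪g, fourierBasis (T := 1) i⟫_ℂ * ⟪fourierBasis (T := 1) i, f⟫_ℂ) =
      fun _ => 0 := by
    funext i
    rcases lt_or_ge i m with hi | hi
    · have h1 := hg i hi
      rw [fourierCoeff_eq_inner] at h1
      rw [coe_fourierBasis, ← inner_conj_symm, h1]
      simp
    · have h1 := hf i hi
      rw [fourierCoeff_eq_inner] at h1
      rw [coe_fourierBasis, h1]
      simp
  rw [h0] at h
  exact h.unique hasSum_zero

/-- Trigonometric polynomials of degree `< k` in the Hardy space. -/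
def PolyLt (k : ℕ) : Set HH := {f | ∀ n : ℤ, (k : ℤ) ≤ n → fourierCoeff (incl f : Tor → ℂ) n = 0}

lemma polyLt_zero {f : HH} (hf : f ∈ PolyLt 0) : f = 0 := by
  have h : ⟪incl f, incl f⟫_ℂ = 0 :=
    inner_eq_zero_of_spectra (m := 0) (incl_mem f) (fun n hn => hf n (by simpa using hn))
  rw [inner_self_eq_zero] at h
  exact incl_injective (by rw [h, map_zero])

lemma fourierLp_mem_Lge (n : ℤ) : (fourierLp 2 n : L2) ∈ Lge n := by
  intro m hm
  rw [fourierCoeff_eq_inner]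
  have := orthonormal_iff_ite.1 (orthonormal_fourier (T := 1)) m n
  rw [this, if_neg (by omega)]

/-- The monomials in `H²`. -/
noncomputable def mono (n : ℕ) : HH :=
  HH.mk (fourierLp 2 (n : ℤ)) (Lge_mono (by omega) (fourierLp_mem_Lge (n : ℤ)))

lemma incl_mono (n : ℕ) : incl (mono n) = fourierLp 2 (n : ℤ) := rfl

/-- The first Taylor coefficient removed. -/
noncomputable def dropZero (c : lp (fun _ : ℕ => ℂ) 1) : lp (fun _ : ℕ => ℂ) 1 :=
  c - lp.single 1 0 (c 0)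

lemma dropZero_zero (c : lp (fun _ : ℕ => ℂ) 1) : dropZero c 0 = 0 := by
  rw [dropZero, lp.coeFn_sub]
  simp

lemma toep_single (a : ℂ) : toep (lp.single 1 0 a) = a • (1 : HH →L[ℂ] HH) := by
  ext1 f
  apply incl_injective
  rw [incl_toep]
  have h : bdry (lp.single 1 0 a) = a • (1 : C(Tor, ℂ)) := by
    have h1 := hasSum_bdry (lp.single 1 0 a)
    have h2 := hasSum_single (f := fun n : ℕ => (lp.single 1 0 a : lp (fun _ : ℕ => ℂ) 1) n •
      (fourier (n : ℤ) : C(Tor, ℂ))) 0 (by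
        intro n hn
        have h3 : ((lp.single 1 0 a : lp (fun _ : ℕ => ℂ) 1) n : ℂ) = 0 := by
          rw [lp.coeFn_single]; exact Pi.single_eq_of_ne (M := fun _ : ℕ => ℂ) hn a
        refine (congrArg (fun z : ℂ => z • (fourier (n : ℤ) : C(Tor, ℂ))) h3).trans ?_
        ext x
        simp)
    have h4 := h1.unique h2
    have h5 : (fourier ((0 : ℕ) : ℤ) : C(Tor, ℂ)) = 1 := by
      ext x; simp
    rw [h4, h5, lp.single_apply_self]
  rw [h, map_smul, mulL_one]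
  simp

lemma toep_decomp (c : lp (fun _ : ℕ => ℂ) 1) :
    toep c = c 0 • (1 : HH →L[ℂ] HH) + toep (dropZero c) := by
  rw [dropZero, map_sub, toep_single]
  abel

lemma adjoint_toep_mem (c : lp (fun _ : ℕ => ℂ) 1) (hc : c 0 = 0) (k : ℕ) {f : HH}
    (hf : f ∈ PolyLt (k + 1)) : (ContinuousLinearMap.adjoint (toep c)) f ∈ PolyLt k := by
  intro j hj
  obtain ⟨j', rfl⟩ : ∃ j' : ℕ, j = j' := ⟨j.toNat, by omega⟩
  rw [fourierCoeff_eq_inner, ← incl_mono, incl.inner_map_map,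
    ContinuousLinearMap.adjoint_inner_right, ← incl.inner_map_map, incl_toep, incl_mono]
  refine inner_eq_zero_of_spectra (m := (j' : ℤ) + 1)
    (mulL_bdry_mem_succ c hc (fourierLp_mem_Lge (j' : ℤ))) (fun n hn => hf n ?_)
  push_cast
  omega

lemma adjoint_toep_pow (c : lp (fun _ : ℕ => ℂ) 1) (hc : c 0 = 0) (k : ℕ) :
    ∀ f ∈ PolyLt k, ((ContinuousLinearMap.adjoint (toep c)) ^ k) f = 0 := by
  induction k with
  | zero => intro f hf; rw [pow_zero]; exact polyLt_zero hf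
  | succ k ih =>
    intro f hf
    rw [pow_succ]
    exact ih _ (adjoint_toep_mem c hc k hf)

lemma norm_pow_apply_le {E : Type*} [NormedAddCommGroup E] [NormedSpace ℂ E]
    (X : E →L[ℂ] E) (i : ℕ) : ∀ f : E, ‖(X ^ i) f‖ ≤ ‖X‖ ^ i * ‖f‖ := by
  induction i with
  | zero => intro f; simp
  | succ i ih =>
    intro f
    rw [pow_succ, pow_succ]
    calc ‖(X ^ i) (X f)‖ ≤ ‖X‖ ^ i * ‖X f‖ := ih (X f)
      _ ≤ ‖X‖ ^ i * (‖X‖ * ‖f‖) := mul_le_mul_of_nonneg_left (X.le_opNorm f) (by positivity)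
      _ = ‖X‖ ^ i * ‖X‖ * ‖f‖ := by ring

/-- On a vector killed by the `k`-th power, the exponential series is finite. -/
lemma norm_exp_smul_le {E : Type*} [NormedAddCommGroup E] [NormedSpace ℂ E] [CompleteSpace E]
    (X : E →L[ℂ] E) (k : ℕ) (f : E) (hf : (X ^ k) f = 0) (t : ℝ) (ht : 0 ≤ t) :
    ‖(NormedSpace.exp ((-t : ℂ) • X)) f‖ ≤
      (∑ i ∈ Finset.range k, t ^ i * ‖X‖ ^ i) * ‖f‖ := by
  have hk : ∀ i, k ≤ i → (X ^ i) f = 0 := by
    intro i hi
    obtain ⟨j, rfl⟩ := Nat.exists_eq_add_of_le' hi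
    rw [pow_add]
    change (X ^ j) ((X ^ k) f) = 0
    rw [hf, map_zero]
  have h1 := (NormedSpace.exp_series_hasSum_exp' (𝕂 := ℂ) ((-t : ℂ) • X)).mapL
    (ContinuousLinearMap.apply ℂ E f : (E →L[ℂ] E) →L[ℂ] E)
  have h2 : HasSum (fun i : ℕ => (ContinuousLinearMap.apply ℂ E f : (E →L[ℂ] E) →L[ℂ] E)
      (((i.factorial : ℂ)⁻¹) • ((-t : ℂ) • X) ^ i)) (∑ i ∈ Finset.range k,
      (ContinuousLinearMap.apply ℂ E f : (E →L[ℂ] E) →L[ℂ] E)
      (((i.factorial : ℂ)⁻¹) • ((-t : ℂ) • X) ^ i)) := by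
    apply hasSum_sum_of_ne_finset_zero
    intro i hi
    rw [Finset.mem_range, not_lt] at hi
    rw [smul_pow, map_smul, map_smul]
    have : (ContinuousLinearMap.apply ℂ E f : (E →L[ℂ] E) →L[ℂ] E) (X ^ i) = (X ^ i) f := rfl
    rw [this, hk i hi, smul_zero, smul_zero]
  have h3 : (NormedSpace.exp ((-t : ℂ) • X)) f = ∑ i ∈ Finset.range k,
      (ContinuousLinearMap.apply ℂ E f : (E →L[ℂ] E) →L[ℂ] E)
      (((i.factorial : ℂ)⁻¹) • ((-t : ℂ) • X) ^ i) := h1.unique h2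
  rw [h3, Finset.sum_mul]
  refine (norm_sum_le _ _).trans (Finset.sum_le_sum fun i _ => ?_)
  rw [smul_pow, map_smul, map_smul]
  have : (ContinuousLinearMap.apply ℂ E f : (E →L[ℂ] E) →L[ℂ] E) (X ^ i) = (X ^ i) f := rfl
  rw [this, norm_smul, norm_smul, norm_inv, Complex.norm_natCast, norm_pow, norm_neg,
    Complex.norm_real, Real.norm_of_nonneg ht]
  have h4 : ((i.factorial : ℝ))⁻¹ ≤ 1 := by
    apply inv_le_one_of_one_le₀
    exact_mod_cast Nat.one_le_iff_ne_zero.2 (Nat.factorial_ne_zero i)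
  have h5 : ‖(X ^ i) f‖ ≤ ‖X‖ ^ i * ‖f‖ := norm_pow_apply_le X i f
  calc ((i.factorial : ℝ))⁻¹ * (t ^ i * ‖(X ^ i) f‖)
      ≤ 1 * (t ^ i * (‖X‖ ^ i * ‖f‖)) := by
        refine mul_le_mul h4 ?_ (by positivity) zero_le_one
        exact mul_le_mul_of_nonneg_left h5 (by positivity)
    _ = t ^ i * ‖X‖ ^ i * ‖f‖ := by ring

end Pool.Agent.Helper55.WH
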