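import Mathlib
import Pool.Agent.Helper55.WH.Strong

set_option autoImplicit false

open Filter Topology MeasureTheory AddCircle
open scoped InnerProductSpace ENNReal

namespace Pool.Agent.Helper55.WH

lemma dense_poly : Dense (⋃ k : ℕ, PolyLt k) := by
  intro f
  rw [Metric.mem_closure_iff]
  intro ε hε
  have h := hasSum_fourier_series_L2 (incl f)
  obtain ⟨s, hs⟩ := (Metric.tendsto_nhds.1 h ε hε).exists
  have hmem : ∑ i ∈ s, fourierCoeff (incl f : Tor → ℂ) i • (fourierLp 2 i : L2) ∈ Lge 0 := by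
    refine Submodule.sum_mem _ fun i _ => ?_
    rcases lt_or_ge i 0 with hi | hi
    · rw [incl_mem f i hi, zero_smul]; exact Submodule.zero_mem _
    · exact Submodule.smul_mem _ _ (Lge_mono hi (fourierLp_mem_Lge i))
  refine ⟨HH.mk _ hmem, ?_, ?_⟩
  · rw [Set.mem_iUnion]
    refine ⟨(∑ i ∈ s, (i.natAbs + 1)), fun n hn => ?_⟩
    rw [incl_mk, fourierCoeff_eq_inner, inner_sum]
    refine Finset.sum_eq_zero fun i hi => ?_
    rw [inner_smul_right]
    have h1 := orthonormal_iff_ite.1 (orthonormal_fourier (T := 1)) n i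
    have h2 : i.natAbs + 1 ≤ ∑ i ∈ s, (i.natAbs + 1) :=
      Finset.single_le_sum (f := fun i : ℤ => i.natAbs + 1) (fun _ _ => Nat.zero_le _) hi
    rw [h1, if_neg (by omega), mul_zero]
  · rw [dist_comm, ← incl.dist_map, incl_mk]
    exact hs

lemma norm_exp_bdry_neg (c : lp (fun _ : ℕ => ℂ) 1) (hc : ∀ x, 0 ≤ (bdry c x).re) :
    ‖NormedSpace.exp (bdry (-c))‖ ≤ 1 := by
  rw [ContinuousMap.norm_le _ zero_le_one]
  intro x
  rw [exp_apply_C, Complex.norm_exp, map_neg, ContinuousMap.neg_apply, Complex.neg_re]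
  exact Real.exp_le_one_iff.2 (by linarith [hc x])

/-- The operator `T_h^*` with `h = exp (-F)`. -/
noncomputable def SS (c : lp (fun _ : ℕ => ℂ) 1) : HH →L[ℂ] HH :=
  ContinuousLinearMap.adjoint (NormedSpace.exp (toep (-c)))

/-- The operator `T_g^*` with `g = exp F`. -/
noncomputable def TT (c : lp (fun _ : ℕ => ℂ) 1) : HH →L[ℂ] HH :=
  ContinuousLinearMap.adjoint (NormedSpace.exp (toep c))

lemma norm_exp_toep_neg_le (c : lp (fun _ : ℕ => ℂ) 1) (hc : ∀ x, 0 ≤ (bdry c x).re) :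
    ‖NormedSpace.exp (toep (-c))‖ ≤ 1 := by
  refine ContinuousLinearMap.opNorm_le_bound _ zero_le_one fun f => ?_
  rw [← incl.norm_map, ← incl.norm_map f, incl_exp_toep]
  refine (mulL_norm_le _ _).trans ?_
  exact mul_le_mul_of_nonneg_right (norm_exp_bdry_neg c hc) (norm_nonneg _)

lemma norm_SS_le (c : lp (fun _ : ℕ => ℂ) 1) (hc : ∀ x, 0 ≤ (bdry c x).re) : ‖SS c‖ ≤ 1 := by
  rw [SS, LinearIsometryEquiv.norm_map]
  exact norm_exp_toep_neg_le c hc

lemma norm_SS_pow_le (c : lp (fun _ : ℕ => ℂ) 1) (hc : ∀ x, 0 ≤ (bdry c x).re) (n : ℕ) (f : HH) :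
    ‖((SS c) ^ n) f‖ ≤ ‖f‖ := by
  refine (norm_pow_apply_le (SS c) n f).trans ?_
  exact mul_le_of_le_one_left (norm_nonneg _) (pow_le_one₀ (norm_nonneg _) (norm_SS_le c hc))

lemma SS_pow_eq (c : lp (fun _ : ℕ => ℂ) 1) (n : ℕ) :
    (SS c) ^ n = NormedSpace.exp (-(n : ℂ) * (starRingEnd ℂ) (c 0)) •
      NormedSpace.exp ((-((n : ℝ) : ℂ)) • ContinuousLinearMap.adjoint (toep (dropZero c))) := by
  let _ : NormedAlgebra ℚ (HH →L[ℂ] HH) := NormedAlgebra.restrictScalars ℚ ℂ (HH →L[ℂ] HH)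
  set X := ContinuousLinearMap.adjoint (toep (dropZero c)) with hX
  have h1 : SS c = NormedSpace.exp (-(((starRingEnd ℂ) (c 0)) • (1 : HH →L[ℂ] HH) + X)) := by
    rw [SS, ← ContinuousLinearMap.star_eq_adjoint, NormedSpace.star_exp, map_neg, star_neg,
      toep_decomp c, star_add, star_smul, star_one, hX, ContinuousLinearMap.star_eq_adjoint]
    rfl
  rw [h1, ← NormedSpace.exp_nsmul]
  have h2 : n • -((starRingEnd ℂ) (c 0) • (1 : HH →L[ℂ] HH) + X) =
      algebraMap ℂ (HH →L[ℂ] HH) (-(n : ℂ) * (starRingEnd ℂ) (c 0)) +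
        (-((n : ℝ) : ℂ)) • X := by
    rw [← Nat.cast_smul_eq_nsmul ℂ, Algebra.algebraMap_eq_smul_one, smul_neg, smul_add, neg_add,
      smul_smul, neg_mul, neg_smul, neg_smul]
    simp
  rw [h2, NormedSpace.exp_add_of_commute (Algebra.commutes _ _),
    ← NormedSpace.algebraMap_exp_comm, Algebra.algebraMap_eq_smul_one, smul_mul_assoc, one_mul]

lemma tendsto_poly_exp (a b : ℝ) (hb : 0 < b) (k : ℕ) (f : ℝ) :
    Tendsto (fun n : ℕ => Real.exp (-(n : ℝ) * b) *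
      ((∑ i ∈ Finset.range k, (n : ℝ) ^ i * a ^ i) * f)) atTop (𝓝 0) := by
  have h1 : ∀ i : ℕ, Tendsto (fun n : ℕ => Real.exp (-(n : ℝ) * b) * ((n : ℝ) ^ i * a ^ i))
      atTop (𝓝 0) := by
    intro i
    have h2 := (Real.tendsto_pow_mul_exp_neg_atTop_nhds_zero i).comp
      (tendsto_natCast_atTop_atTop.atTop_mul_const hb : Tendsto (fun n : ℕ => (n : ℝ) * b) atTop
        atTop)
    have h3 := h2.const_mul (a ^ i / b ^ i)
    rw [mul_zero] at h3
    refine h3.congr (fun n => ?_)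
    simp only [Function.comp]
    rw [mul_pow, neg_mul]
    field_simp
  have h4 : Tendsto (fun n : ℕ => (∑ i ∈ Finset.range k,
      Real.exp (-(n : ℝ) * b) * ((n : ℝ) ^ i * a ^ i)) * f) atTop
      (𝓝 ((∑ _i ∈ Finset.range k, (0 : ℝ)) * f)) :=
    (tendsto_finsetSum _ fun i _ => h1 i).mul_const f
  simp only [Finset.sum_const_zero, zero_mul] at h4
  refine h4.congr (fun n => ?_)
  rw [← Finset.mul_sum, mul_assoc]

theorem strong_SS (c : lp (fun _ : ℕ => ℂ) 1) (hc : ∀ x, 0 ≤ (bdry c x).re)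
    (hc0 : 0 < (c 0).re) (f : HH) : Tendsto (fun n : ℕ => ((SS c) ^ n) f) atTop (𝓝 0) := by
  refine strong_of_dense (fun n => (SS c) ^ n) (fun n x => norm_SS_pow_le c hc n x) _ dense_poly
    ?_ f
  intro x hx
  rw [Set.mem_iUnion] at hx
  obtain ⟨k, hk⟩ := hx
  set X := ContinuousLinearMap.adjoint (toep (dropZero c)) with hX
  have hXk : (X ^ k) x = 0 := adjoint_toep_pow (dropZero c) (dropZero_zero c) k x hk
  rw [tendsto_zero_iff_norm_tendsto_zero]
  refine squeeze_zero (fun _ => norm_nonneg _) (fun n => ?_)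
    (tendsto_poly_exp ‖X‖ (c 0).re hc0 k ‖x‖)
  rw [SS_pow_eq]
  have h1 : ‖(NormedSpace.exp (-(n : ℂ) * (starRingEnd ℂ) (c 0)) •
      NormedSpace.exp ((-((n : ℝ) : ℂ)) • X)) x‖ =
      Real.exp (-(n : ℝ) * (c 0).re) * ‖(NormedSpace.exp ((-((n : ℝ) : ℂ)) • X)) x‖ := by
    rw [_root_.smul_apply, norm_smul, ← Complex.exp_eq_exp_ℂ, Complex.norm_exp]
    congr 2
    simp
  rw [h1]
  exact mul_le_mul_of_nonneg_left (norm_exp_smul_le X k x hXk n (Nat.cast_nonneg n))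
    (Real.exp_pos _).le

end Pool.Agent.Helper55.WH
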