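import Mathlib
import Pool.Agent.Helper55.WH.Strong2

set_option autoImplicit false

open Filter Topology MeasureTheory AddCircle
open scoped InnerProductSpace ENNReal

namespace Pool.Agent.Helper55.WH

lemma norm_pow_exp_le (c : lp (fun _ : ℕ => ℂ) 1) (hc : ∀ x, 0 ≤ (bdry c x).re) (n : ℕ) :
    ‖(NormedSpace.exp (bdry (-c))) ^ n‖ ≤ 1 := by
  rw [ContinuousMap.norm_le _ zero_le_one]
  intro x
  rw [ContinuousMap.pow_apply, norm_pow]
  refine pow_le_one₀ (norm_nonneg _) ?_
  exact (ContinuousMap.norm_coe_le_norm _ x).trans (norm_exp_bdry_neg c hc)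

lemma incl_pow_exp (c : lp (fun _ : ℕ => ℂ) 1) (n : ℕ) : ∀ f : HH,
    incl (((NormedSpace.exp (toep c)) ^ n) f) = mulL ((NormedSpace.exp (bdry c)) ^ n) (incl f) := by
  induction n with
  | zero => intro f; rw [pow_zero, pow_zero, mulL_one]; rfl
  | succ n ih =>
    intro f
    rw [pow_succ, pow_succ, mulL_mul]
    change incl (((NormedSpace.exp (toep c)) ^ n) ((NormedSpace.exp (toep c)) f)) =
      mulL ((NormedSpace.exp (bdry c)) ^ n) (mulL (NormedSpace.exp (bdry c)) (incl f))
    rw [ih, incl_exp_toep]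

lemma adjoint_pow (A : HH →L[ℂ] HH) (n : ℕ) :
    (ContinuousLinearMap.adjoint A) ^ n = ContinuousLinearMap.adjoint (A ^ n) := by
  rw [← ContinuousLinearMap.star_eq_adjoint, ← ContinuousLinearMap.star_eq_adjoint, star_pow]

/-- The powers of `h = exp (-F)` tend to zero weakly as multiplication operators. -/
theorem weak_mul (c : lp (fun _ : ℕ => ℂ) 1) (hc : ∀ x, 0 ≤ (bdry c x).re)
    (hc0 : 0 < (c 0).re) (x y : L2) :
    Tendsto (fun n : ℕ => ⟪mulL ((NormedSpace.exp (bdry (-c))) ^ n) x, y⟫_ℂ) atTop (𝓝 0) := by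
  refine weak_of_span (fun n => mulL ((NormedSpace.exp (bdry (-c))) ^ n)) (fun n x => ?_)
    (Set.range (fourierLp 2)) (span_fourierLp_closure_eq_top (by simp)) y ?_ x
  · refine (mulL_norm_le _ _).trans ?_
    exact mul_le_of_le_one_left (norm_nonneg _) (norm_pow_exp_le c hc n)
  rintro _ ⟨j, rfl⟩
  have h1 : ∀ n : ℕ, ⟪mulL ((NormedSpace.exp (bdry (-c))) ^ n) (fourierLp 2 j), y⟫_ℂ =
      ⟪mono 0, ((SS c) ^ n) (projH (mulL (star (fourier j)) y))⟫_ℂ := by
    intro n
    have e1 : (fourierLp 2 j : L2) = mulL (fourier j) (incl (mono 0)) := by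
      rw [incl_mono, mulL_fourier_fourierLp]; simp
    have e2 : mulL ((NormedSpace.exp (bdry (-c))) ^ n) (fourierLp 2 j) =
        mulL (fourier j) (incl (((NormedSpace.exp (toep (-c))) ^ n) (mono 0))) := by
      rw [incl_pow_exp, e1]
      have := mulL_mul ((NormedSpace.exp (bdry (-c))) ^ n) (fourier j)
      have h3 := mulL_mul (fourier j) ((NormedSpace.exp (bdry (-c))) ^ n)
      rw [mul_comm, this] at h3
      exact congrArg (fun A : L2 →L[ℂ] L2 => A (incl (mono 0))) h3
    rw [e2, mulL_inner, ← inner_projH, SS, adjoint_pow, ContinuousLinearMap.adjoint_inner_right]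
  simp only [h1]
  have h2 := strong_SS c hc hc0 (projH (mulL (star (fourier j)) y))
  have h3 := (tendsto_const_nhds (x := mono 0)).inner (𝕜 := ℂ) h2
  rw [inner_zero_right] at h3
  exact h3

lemma exp_sub_mem (d : lp (fun _ : ℕ => ℂ) 1) (hd : d 0 = 0) {m : ℤ} {u : L2} (hu : u ∈ Lge m) :
    mulL (NormedSpace.exp (bdry d)) u - u ∈ Lge (m + 1) := by
  set B := mulL (bdry d) with hB
  have hpow : ∀ k : ℕ, (B ^ k) u ∈ Lge m := by
    intro k
    induction k with
    | zero => simpa using hu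
    | succ k ih => rw [pow_succ']; exact mulL_bdry_mem d ih
  have hpow' : ∀ k : ℕ, (B ^ (k + 1)) u ∈ Lge (m + 1) := by
    intro k
    rw [pow_succ']
    exact mulL_bdry_mem_succ d hd (hpow k)
  have h1 := (NormedSpace.exp_series_hasSum_exp' (𝕂 := ℂ) B).mapL
    (ContinuousLinearMap.apply ℂ L2 u : (L2 →L[ℂ] L2) →L[ℂ] L2)
  have h2 := h1.sub (hasSum_ite_eq (0 : ℕ) u)
  have h3 : (ContinuousLinearMap.apply ℂ L2 u : (L2 →L[ℂ] L2) →L[ℂ] L2) (NormedSpace.exp B) =
      mulL (NormedSpace.exp (bdry d)) u := by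
    rw [mulL_exp]; rfl
  rw [h3] at h2
  refine (isClosed_Lge _).mem_of_tendsto h2 (Eventually.of_forall fun s => ?_)
  refine Submodule.sum_mem _ fun k _ => ?_
  rcases k with _ | k
  · simp
  · rw [map_smul]
    simp only [Nat.add_eq_zero_iff, one_ne_zero, and_false, if_false, sub_zero]
    exact Submodule.smul_mem _ _ (hpow' k)

/-- Uniqueness: a function in `H²` vanishing on `E` is zero, provided there is a tent function
supported in `E`. -/
theorem uniqueness (E : Set Tor) (θ : lp (fun _ : ℕ => ℂ) 1)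
    (hθ : ∀ x ∉ E, (bdry θ x).re = 0) (hθ0 : 0 < (θ 0).re) (u : L2) (hu : u ∈ Lge 0)
    (hE : ∀ᵐ x ∂(haarAddCircle : Measure Tor), x ∈ E → u x = 0) : u = 0 := by
  have hstep : ∀ m : ℤ, u ∈ Lge m → u ∈ Lge (m + 1) := by
    intro m hm n hn
    rcases lt_or_eq_of_le (Int.lt_add_one_iff.1 hn) with h | h
    · exact hm n h
    subst h
    -- the key estimate
    have hbound : ∀ N : ℕ, ‖fourierCoeff (u : Tor → ℂ) n‖ ≤
        Real.exp (-((N : ℝ) * (θ 0).re)) * ‖u‖ := by
      intro N
      set d : lp (fun _ : ℕ => ℂ) 1 := (N : ℂ) • dropZero θ with hd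
      have hd0 : d 0 = 0 := by
        rw [hd, lp.coeFn_smul, Pi.smul_apply, dropZero_zero, smul_zero]
      have h1 := exp_sub_mem d hd0 hm n (by omega)
      rw [fourierCoeff_eq_inner, inner_sub_right, sub_eq_zero] at h1
      rw [fourierCoeff_eq_inner, ← h1]
      refine (norm_inner_le_norm _ _).trans ?_
      have h2 : ‖(fourierLp 2 n : L2)‖ = 1 := (orthonormal_fourier (T := 1)).1 n
      rw [h2, one_mul]
      refine mulL_norm_le_of_ae _ _ _ ?_
      filter_upwards [hE] with x hx hux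
      have hxE : x ∉ E := fun h => hux (hx h)
      rw [exp_apply_C, Complex.norm_exp]
      apply le_of_eq
      congr 1
      rw [hd, map_smul, ContinuousMap.smul_apply, dropZero, map_sub, ContinuousMap.sub_apply]
      have h5 : bdry (lp.single 1 0 (θ 0)) x = θ 0 := by
        have h6 := hasSum_bdry_apply (lp.single 1 0 (θ 0)) x
        have h7 := hasSum_single (f := fun n : ℕ =>
          (lp.single 1 0 (θ 0) : lp (fun _ : ℕ => ℂ) 1) n * (fourier (n : ℤ) x : ℂ)) 0 (by
          intro n hn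
          have h3 : ((lp.single 1 0 (θ 0) : lp (fun _ : ℕ => ℂ) 1) n : ℂ) = 0 := by
            rw [lp.coeFn_single]; exact Pi.single_eq_of_ne (M := fun _ : ℕ => ℂ) hn _
          rw [h3, zero_mul])
        rw [h6.unique h7, lp.single_apply_self]
        simp
      rw [h5]
      simp [hθ x hxE]
    have hlim : Tendsto (fun N : ℕ => Real.exp (-((N : ℝ) * (θ 0).re)) * ‖u‖) atTop
        (𝓝 (0 * ‖u‖)) := by
      refine Tendsto.mul_const _ (Real.tendsto_exp_atBot.comp ?_)
      exact tendsto_neg_atTop_atBot.comp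
        ((tendsto_natCast_atTop_atTop).atTop_mul_const hθ0)
    rw [zero_mul] at hlim
    have h0 : ‖fourierCoeff (u : Tor → ℂ) n‖ ≤ 0 := ge_of_tendsto' hlim hbound
    exact norm_le_zero_iff.1 h0
  have hall : ∀ m : ℕ, u ∈ Lge (m : ℤ) := by
    intro m
    induction m with
    | zero => simpa using hu
    | succ m ih => push_cast; exact hstep m ih
  have h : ⟪u, u⟫_ℂ = 0 := by
    refine inner_eq_zero_of_spectra (m := 0) hu (fun n hn => ?_)
    exact hall (n.toNat + 1) n (by push_cast; omega)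
  exact inner_self_eq_zero.1 h

/-- Functions in `L²` supported in `E`. -/
noncomputable def KE (E : Set Tor) : Submodule ℂ L2 where
  carrier := {w | ∀ᵐ x ∂(haarAddCircle : Measure Tor), x ∉ E → w x = 0}
  add_mem' := by
    intro f g hf hg
    have hf' : ∀ᵐ x ∂(haarAddCircle : Measure Tor), x ∉ E → f x = 0 := hf
    have hg' : ∀ᵐ x ∂(haarAddCircle : Measure Tor), x ∉ E → g x = 0 := hg
    change ∀ᵐ x ∂(haarAddCircle : Measure Tor), x ∉ E → (f + g : L2) x = 0
    filter_upwards [hf', hg', Lp.coeFn_add f g] with x h1 h2 h3 hx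
    rw [h3, Pi.add_apply, h1 hx, h2 hx, add_zero]
  zero_mem' := by
    change ∀ᵐ x ∂(haarAddCircle : Measure Tor), x ∉ E → (0 : L2) x = 0
    filter_upwards [Lp.coeFn_zero ℂ 2 (haarAddCircle : Measure Tor)] with x h1 _
    rw [h1]; rfl
  smul_mem' := by
    intro c f hf
    have hf' : ∀ᵐ x ∂(haarAddCircle : Measure Tor), x ∉ E → f x = 0 := hf
    change ∀ᵐ x ∂(haarAddCircle : Measure Tor), x ∉ E → (c • f : L2) x = 0
    filter_upwards [hf', Lp.coeFn_smul c f] with x h1 h2 hx
    rw [h2, Pi.smul_apply, h1 hx, smul_zero]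

lemma mem_KE {E : Set Tor} {w : L2} :
    w ∈ KE E ↔ ∀ᵐ x ∂(haarAddCircle : Measure Tor), x ∉ E → w x = 0 := Iff.rfl

lemma mulL_mem_KE {E : Set Tor} (c : C(Tor, ℂ)) {w : L2} (hw : w ∈ KE E) : mulL c w ∈ KE E := by
  rw [mem_KE] at hw ⊢
  filter_upwards [hw, mulL_coe c w] with x h1 h2 hx
  rw [h2, h1 hx, mul_zero]

/-- Two multipliers agreeing on `E` act equally on functions supported in `E`. -/
lemma mulL_congr_KE {E : Set Tor} (c d : C(Tor, ℂ)) (h : ∀ x ∈ E, c x = d x) {w : L2}
    (hw : w ∈ KE E) : mulL c w = mulL d w := by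
  rw [mem_KE] at hw
  apply Lp.ext
  filter_upwards [hw, mulL_coe c w, mulL_coe d w] with x h1 h2 h3
  rw [h2, h3]
  by_cases hx : x ∈ E
  · rw [h x hx]
  · rw [h1 hx, mul_zero, mul_zero]

/-- Density of the projections of functions supported in `E`. -/
lemma dense_proj (E : Set Tor) (hEm : MeasurableSet E) (θ : lp (fun _ : ℕ => ℂ) 1)
    (hθ : ∀ x ∉ E, (bdry θ x).re = 0) (hθ0 : 0 < (θ 0).re) :
    Dense (projH '' (KE E : Set L2)) := by
  have h1 : (projH '' (KE E : Set L2)) =
      (((KE E).map (projH : L2 →ₗ[ℂ] HH) : Submodule ℂ HH) : Set HH) := rfl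
  rw [h1, Submodule.dense_iff_topologicalClosure_eq_top,
    Submodule.topologicalClosure_eq_top_iff, Submodule.eq_bot_iff]
  intro u hu
  rw [Submodule.mem_orthogonal] at hu
  have h2 : ∀ w ∈ KE E, ⟪w, incl u⟫_ℂ = 0 := by
    intro w hw
    rw [← projH_inner]
    exact hu _ ⟨w, hw, rfl⟩
  -- test against the restriction of `u` to `E`
  have hmem : MemLp (E.indicator (incl u : Tor → ℂ)) 2 (haarAddCircle : Measure Tor) :=
    (Lp.memLp (incl u)).indicator hEm
  set w : L2 := hmem.toLp _ with hw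
  have hwK : w ∈ KE E := by
    rw [mem_KE]
    filter_upwards [hmem.coeFn_toLp] with x hx hxE
    rw [hx, Set.indicator_of_notMem hxE]
  have h3 := h2 w hwK
  have h4 : ⟪w, incl u⟫_ℂ = ⟪w, w⟫_ℂ := by
    rw [L2.inner_def, L2.inner_def]
    apply integral_congr_ae
    filter_upwards [hmem.coeFn_toLp] with x hx
    rw [hx]
    by_cases hxE : x ∈ E
    · rw [Set.indicator_of_mem hxE]
    · rw [Set.indicator_of_notMem hxE]; simp
  rw [h4, inner_self_eq_zero] at h3
  have h5 : ∀ᵐ x ∂(haarAddCircle : Measure Tor), x ∈ E → (incl u : L2) x = 0 := by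
    have h6 : (w : Tor → ℂ) =ᵐ[haarAddCircle] 0 := by
      rw [h3]; exact Lp.coeFn_zero ℂ 2 (haarAddCircle : Measure Tor)
    filter_upwards [hmem.coeFn_toLp, h6] with x hx h7 hxE
    rw [hx, Set.indicator_of_mem hxE] at h7
    exact h7
  have h8 := uniqueness E θ hθ hθ0 (incl u) (incl_mem u) h5
  exact incl_injective (by rw [h8, map_zero])

theorem blockProp_TT (E : Set Tor) (hEm : MeasurableSet E) (c : lp (fun _ : ℕ => ℂ) 1)
    (hc : ∀ x, 0 ≤ (bdry c x).re) (hcE : ∀ x ∈ E, (bdry c x).re = 0) (hc0 : 0 < (c 0).re)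
    (θ : lp (fun _ : ℕ => ℂ) 1) (hθ : ∀ x ∉ E, (bdry θ x).re = 0) (hθ0 : 0 < (θ 0).re) :
    BlockProp (TT c) := by
  set g : C(Tor, ℂ) := NormedSpace.exp (bdry c) with hg
  set h : C(Tor, ℂ) := NormedSpace.exp (bdry (-c)) with hh
  have hgh : star g * star h = 1 := by
    ext x
    rw [ContinuousMap.mul_apply, ContinuousMap.star_apply, ContinuousMap.star_apply, hg, hh,
      exp_apply_C, exp_apply_C, ← star_mul, ← Complex.exp_add, map_neg, ContinuousMap.neg_apply]
    simp
  have hEstar : ∀ x ∈ E, star (bdry c x) = - bdry c x := by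
    intro x hx
    apply Complex.ext
    · simp [hcE x hx]
    · simp
  have hEg : ∀ x ∈ E, (star g) x = h x := by
    intro x hx
    rw [ContinuousMap.star_apply, hg, hh, exp_apply_C, exp_apply_C, map_neg,
      ContinuousMap.neg_apply, ← hEstar x hx]
    exact (Complex.exp_conj _).symm
  have hEgg : ∀ x ∈ E, (star (star g) * star g) x = 1 := by
    intro x hx
    rw [ContinuousMap.mul_apply, hEg x hx, star_star, hg, hh, exp_apply_C, exp_apply_C,
      ← Complex.exp_add, map_neg, ContinuousMap.neg_apply]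
    simp
  have hdata : BlockData (mulL (star g)) (mulL (star h)) projH (TT c) (SS c) (KE E) :=
    { mapM := fun x hx => mulL_mem_KE _ hx
      mapM' := fun x hx => mulL_mem_KE _ hx
      inv := fun x => by
        change ((mulL (star g)) * (mulL (star h))) x = x
        rw [← mulL_mul, hgh, mulL_one]; rfl
      iso := fun x hx y hy => by
        rw [mulL_inner]
        have : mulL (star (star g)) (mulL (star g) y) = mulL (star (star g) * star g) y := by
          rw [mulL_mul]; rfl
        rw [this, mulL_congr_KE _ 1 (fun z hz => by rw [hEgg z hz]; rfl) hy, mulL_one]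
        rfl
      weak := fun x hx y _ => by
        refine (weak_mul c hc hc0 x y).congr (fun n => ?_)
        rw [← mulL_pow]
        congr 1
        refine mulL_congr_KE _ _ (fun z hz => ?_) hx
        rw [ContinuousMap.pow_apply, ContinuousMap.pow_apply, hEg z hz]
      intT := fun x => adjoint_projH _ g (fun f => incl_exp_toep c f) x
      intS := fun x => adjoint_projH _ h (fun f => incl_exp_toep (-c) f) x
      strong := strong_SS c hc hc0
      dense := dense_proj E hEm θ hθ hθ0 }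
  intro f₀ v η ε R hη hε hR r
  exact hdata.block f₀ v hη hε hR r

end Pool.Agent.Helper55.WH
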