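import Mathlib
import Pool.Agent.Helper55.WH.Data

set_option autoImplicit false

open Filter Topology MeasureTheory AddCircle
open scoped InnerProductSpace ENNReal

namespace Pool.Agent.Helper55.WH

lemma hasSum_cos_sq {y : ℝ} (hy : y ∈ Set.Icc (0 : ℝ) 1) :
    HasSum (fun n : ℕ => 1 / (n : ℝ) ^ 2 * Real.cos (2 * Real.pi * n * y))
      (Real.pi ^ 2 * (y ^ 2 - y + 1 / 6)) := by
  have h := hasSum_one_div_nat_pow_mul_cos one_ne_zero hy
  have h2 : (Polynomial.map (algebraMap ℚ ℝ) (Polynomial.bernoulli (2 * 1))).eval y =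
      y ^ 2 - y + 1 / 6 := by
    rw [Polynomial.eval_map]
    simp [Polynomial.bernoulli, Finset.sum_range_succ, bernoulli_one, bernoulli_two,
      Polynomial.eval₂_add, Nat.choose]
    ring
  rw [h2] at h
  have h3 : (-1 : ℝ) ^ (1 + 1) * (2 * Real.pi) ^ (2 * 1) / 2 / ((2 * 1).factorial : ℝ) *
      (y ^ 2 - y + 1 / 6) = Real.pi ^ 2 * (y ^ 2 - y + 1 / 6) := by
    have h4 : ((2 * 1).factorial : ℝ) = 2 := by norm_num [Nat.factorial]
    rw [h4]; ring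
  rw [h3] at h
  exact h

lemma summable_inv_sq : Summable fun n : ℕ => 1 / (n : ℝ) ^ 2 :=
  Real.summable_one_div_nat_pow.2 one_lt_two

/-- A real sequence with a zeroth term and quadratically decaying remainder, as element of `ℓ¹`. -/
lemma memlp_of_bound (c : ℕ → ℂ) (C : ℝ) (h : ∀ n, ‖c n‖ ≤ C * (if n = 0 then 1 else 0) +
    C * (1 / (n : ℝ) ^ 2)) : Memℓp c 1 := by
  apply memℓp_gen
  simp only [ENNReal.toReal_one, Real.rpow_one]
  refine Summable.of_nonneg_of_le (fun _ => norm_nonneg _) h ?_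
  refine Summable.add ?_ (summable_inv_sq.mul_left C)
  exact (hasSum_ite_eq (0 : ℕ) (1 : ℝ)).summable.mul_left C

/-- Coefficients of `2 (|x| - ρ)₊`. -/
noncomputable def coefB (ρ : ℝ) (n : ℕ) : ℝ :=
  (if n = 0 then 2 * (ρ - 1 / 2) ^ 2 else 0) -
    (2 / Real.pi ^ 2) * (1 / (n : ℝ) ^ 2 * (Real.cos (2 * Real.pi * n * ρ) -
      Real.cos (2 * Real.pi * n * (1 / 2))))

/-- Coefficients of `(ρ - |x|)₊`. -/
noncomputable def coefT (ρ : ℝ) (n : ℕ) : ℝ :=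
  (if n = 0 then ρ ^ 2 else 0) +
    (1 / Real.pi ^ 2) * (1 / (n : ℝ) ^ 2 * (1 - Real.cos (2 * Real.pi * n * ρ)))

lemma pi_sq_ge : (1 : ℝ) ≤ Real.pi ^ 2 := by nlinarith [Real.pi_gt_three]

lemma coefB_bound (ρ : ℝ) (h0 : 0 ≤ ρ) (h1 : ρ ≤ 1 / 2) (n : ℕ) :
    ‖((coefB ρ n : ℝ) : ℂ)‖ ≤ 4 * (if n = 0 then 1 else 0) + 4 * (1 / (n : ℝ) ^ 2) := by
  rw [Complex.norm_real, Real.norm_eq_abs, coefB]
  refine (abs_sub _ _).trans (add_le_add ?_ ?_)
  · split_ifs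
    · rw [abs_of_nonneg (by positivity)]; nlinarith
    · simp
  · have hp : (0 : ℝ) ≤ 1 / (n : ℝ) ^ 2 := by positivity
    have h2 : 2 / Real.pi ^ 2 ≤ 2 := by
      rw [div_le_iff₀ (by positivity)]; nlinarith [pi_sq_ge]
    have h2' : 0 ≤ 2 / Real.pi ^ 2 := by positivity
    have h3 : |Real.cos (2 * Real.pi * n * ρ) - Real.cos (2 * Real.pi * n * (1 / 2))| ≤ 2 := by
      have a1 := Real.abs_cos_le_one (2 * Real.pi * n * ρ)
      have a2 := Real.abs_cos_le_one (2 * Real.pi * n * (1 / 2))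
      exact (abs_sub _ _).trans (by linarith)
    rw [abs_mul, abs_mul, abs_of_nonneg hp, abs_of_nonneg h2']
    calc 2 / Real.pi ^ 2 * (1 / (n : ℝ) ^ 2 *
          |Real.cos (2 * Real.pi * n * ρ) - Real.cos (2 * Real.pi * n * (1 / 2))|)
        ≤ 2 * (1 / (n : ℝ) ^ 2 * 2) :=
          mul_le_mul h2 (mul_le_mul_of_nonneg_left h3 hp) (by positivity) (by norm_num)
      _ = 4 * (1 / (n : ℝ) ^ 2) := by ring

lemma coefT_bound (ρ : ℝ) (h0 : 0 ≤ ρ) (h1 : ρ ≤ 1 / 2) (n : ℕ) :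
    ‖((coefT ρ n : ℝ) : ℂ)‖ ≤ 4 * (if n = 0 then 1 else 0) + 4 * (1 / (n : ℝ) ^ 2) := by
  rw [Complex.norm_real, Real.norm_eq_abs, coefT]
  refine (abs_add_le _ _).trans (add_le_add ?_ ?_)
  · split_ifs
    · rw [abs_of_nonneg (by positivity)]; nlinarith
    · simp
  · have hp : (0 : ℝ) ≤ 1 / (n : ℝ) ^ 2 := by positivity
    have h2 : 1 / Real.pi ^ 2 ≤ 1 := by
      rw [div_le_iff₀ (by positivity)]; nlinarith [pi_sq_ge]
    have h2' : 0 ≤ 1 / Real.pi ^ 2 := by positivity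
    have h3 : |1 - Real.cos (2 * Real.pi * n * ρ)| ≤ 2 := by
      have a1 := Real.abs_cos_le_one (2 * Real.pi * n * ρ)
      exact (abs_sub _ _).trans (by rw [abs_one]; linarith)
    rw [abs_mul, abs_mul, abs_of_nonneg hp, abs_of_nonneg h2']
    calc 1 / Real.pi ^ 2 * (1 / (n : ℝ) ^ 2 * |1 - Real.cos (2 * Real.pi * n * ρ)|)
        ≤ 1 * (1 / (n : ℝ) ^ 2 * 2) :=
          mul_le_mul h2 (mul_le_mul_of_nonneg_left h3 hp) (by positivity) (by norm_num)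
      _ ≤ 4 * (1 / (n : ℝ) ^ 2) := by linarith

/-- Value of the cosine series of `coefB`. -/
lemma hasSum_coefB (ρ x : ℝ) (h0 : 0 ≤ ρ) (h1 : ρ ≤ 1 / 2) (hx0 : 0 ≤ x) (hx1 : x ≤ 1 / 2) :
    HasSum (fun n : ℕ => coefB ρ n * Real.cos (2 * Real.pi * n * x)) (2 * max 0 (x - ρ)) := by
  have hA := hasSum_cos_sq (y := |x - ρ|) ⟨abs_nonneg _, by rw [abs_le]; constructor <;> linarith⟩
  have hB := hasSum_cos_sq (y := x + ρ) ⟨by linarith, by linarith⟩
  have hC := hasSum_cos_sq (y := 1 / 2 - x) ⟨by linarith, by linarith⟩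
  have hD := (hasSum_ite_eq (0 : ℕ) (2 * (ρ - 1 / 2) ^ 2 : ℝ))
  have hE := hD.sub (((hA.add hB).mul_left (1 / Real.pi ^ 2)).sub
    (hC.mul_left (2 / Real.pi ^ 2)))
  convert! hE using 1
  · funext n
    have hcos1 : Real.cos (2 * Real.pi * n * |x - ρ|) = Real.cos (2 * Real.pi * n * (x - ρ)) := by
      rcases abs_choice (x - ρ) with h | h
      · rw [h]
      · rw [h, mul_neg, Real.cos_neg]
    have hprod : Real.cos (2 * Real.pi * n * (x - ρ)) + Real.cos (2 * Real.pi * n * (x + ρ)) =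
        2 * (Real.cos (2 * Real.pi * n * x) * Real.cos (2 * Real.pi * n * ρ)) := by
      rw [mul_sub, mul_add, Real.cos_sub, Real.cos_add]; ring
    have hprod2 : Real.cos (2 * Real.pi * n * (1 / 2 - x)) =
        Real.cos (2 * Real.pi * n * (1 / 2)) * Real.cos (2 * Real.pi * n * x) := by
      have hs : Real.sin (2 * Real.pi * n * (1 / 2)) = 0 := by
        have : 2 * Real.pi * n * (1 / 2) = n * Real.pi := by ring
        rw [this, Real.sin_nat_mul_pi]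
      rw [mul_sub, Real.cos_sub, hs]; ring
    rw [coefB, hcos1, hprod2, ← mul_add, hprod]
    rcases Nat.eq_zero_or_pos n with rfl | hn
    · simp
    · rw [if_neg (by omega)]
      ring
  · have hpi : Real.pi ^ 2 ≠ 0 := by positivity
    rcases le_total ρ x with h | h
    · rw [abs_of_nonneg (by linarith), max_eq_right (by linarith)]
      field_simp
      ring
    · rw [abs_of_nonpos (by linarith), max_eq_left (by linarith)]
      field_simp
      ring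

/-- Value of the cosine series of `coefT`. -/
lemma hasSum_coefT (ρ x : ℝ) (h0 : 0 ≤ ρ) (h1 : ρ ≤ 1 / 2) (hx0 : 0 ≤ x) (hx1 : x ≤ 1 / 2) :
    HasSum (fun n : ℕ => coefT ρ n * Real.cos (2 * Real.pi * n * x)) (max 0 (ρ - x)) := by
  have hA := hasSum_cos_sq (y := |x - ρ|) ⟨abs_nonneg _, by rw [abs_le]; constructor <;> linarith⟩
  have hB := hasSum_cos_sq (y := x + ρ) ⟨by linarith, by linarith⟩
  have hC := hasSum_cos_sq (y := x) ⟨by linarith, by linarith⟩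
  have hD := (hasSum_ite_eq (0 : ℕ) (ρ ^ 2 : ℝ))
  have hE := hD.sub (((hA.add hB).mul_left (1 / (2 * Real.pi ^ 2))).sub
    (hC.mul_left (1 / Real.pi ^ 2)))
  convert! hE using 1
  · funext n
    have hcos1 : Real.cos (2 * Real.pi * n * |x - ρ|) = Real.cos (2 * Real.pi * n * (x - ρ)) := by
      rcases abs_choice (x - ρ) with h | h
      · rw [h]
      · rw [h, mul_neg, Real.cos_neg]
    have hprod : Real.cos (2 * Real.pi * n * (x - ρ)) + Real.cos (2 * Real.pi * n * (x + ρ)) =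
        2 * (Real.cos (2 * Real.pi * n * x) * Real.cos (2 * Real.pi * n * ρ)) := by
      rw [mul_sub, mul_add, Real.cos_sub, Real.cos_add]; ring
    rw [coefT, hcos1, ← mul_add, hprod]
    have hpi : Real.pi ^ 2 ≠ 0 := by positivity
    rcases Nat.eq_zero_or_pos n with rfl | hn
    · simp
    · rw [if_neg (by omega)]
      field_simp
      ring
  · have hpi : Real.pi ^ 2 ≠ 0 := by positivity
    rcases le_total ρ x with h | h
    · rw [abs_of_nonneg (by linarith), max_eq_left (by linarith)]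
      field_simp
      ring
    · rw [abs_of_nonpos (by linarith), max_eq_right (by linarith)]
      field_simp
      ring

/-- Every point of the circle has a representative realising the norm. -/
lemma exists_rep (x : Tor) : ∃ y : ℝ, (y : Tor) = x ∧ ‖x‖ = |y| ∧ |y| ≤ 1 / 2 := by
  obtain ⟨z, rfl⟩ := QuotientAddGroup.mk_surjective x
  refine ⟨z - round z, ?_, ?_, ?_⟩
  · rw [AddCircle.coe_sub]
    have : ((round z : ℝ) : Tor) = 0 := by
      have := AddCircle.coe_period (1 : ℝ)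
      have h2 : ((round z : ℝ) : Tor) = (round z) • ((1 : ℝ) : Tor) := by
        rw [← AddCircle.coe_zsmul]; simp
      rw [h2, this, smul_zero]
    rw [this, sub_zero]
  · exact UnitAddCircle.norm_eq
  · exact abs_sub_round z

lemma re_bdry_eq (c : lp (fun _ : ℕ => ℂ) 1) (γ : ℕ → ℝ) (hγ : ∀ n, c n = (γ n : ℂ)) (y : ℝ) :
    HasSum (fun n : ℕ => γ n * Real.cos (2 * Real.pi * n * |y|)) ((bdry c (y : Tor)).re) := by
  have h := Complex.hasSum_re (hasSum_bdry_apply c (y : Tor))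
  convert! h using 1
  funext n
  rw [hγ n, Complex.re_ofReal_mul, fourier_coe_apply]
  congr 1
  have e1 : 2 * (Real.pi : ℂ) * Complex.I * ((n : ℤ) : ℂ) * (y : ℂ) / ((1 : ℝ) : ℂ) =
      ((2 * Real.pi * n * y : ℝ) : ℂ) * Complex.I := by push_cast; ring
  rw [e1, Complex.exp_ofReal_mul_I_re]
  rcases abs_choice y with h | h
  · rw [h]
  · rw [h, mul_neg, Real.cos_neg]

/-- The element of `ℓ¹` with boundary real part `2 (‖x‖ - ρ)₊`. -/
noncomputable def gamB (ρ : ℝ) (h0 : 0 ≤ ρ) (h1 : ρ ≤ 1 / 2) : lp (fun _ : ℕ => ℂ) 1 :=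
  ⟨fun n => ((coefB ρ n : ℝ) : ℂ), memlp_of_bound _ 4 (coefB_bound ρ h0 h1)⟩

/-- The element of `ℓ¹` with boundary real part `(ρ - ‖x‖)₊`. -/
noncomputable def gamT (ρ : ℝ) (h0 : 0 ≤ ρ) (h1 : ρ ≤ 1 / 2) : lp (fun _ : ℕ => ℂ) 1 :=
  ⟨fun n => ((coefT ρ n : ℝ) : ℂ), memlp_of_bound _ 4 (coefT_bound ρ h0 h1)⟩

lemma gamB_apply (ρ : ℝ) (h0 : 0 ≤ ρ) (h1 : ρ ≤ 1 / 2) (n : ℕ) :
    gamB ρ h0 h1 n = ((coefB ρ n : ℝ) : ℂ) := rfl

lemma gamT_apply (ρ : ℝ) (h0 : 0 ≤ ρ) (h1 : ρ ≤ 1 / 2) (n : ℕ) :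
    gamT ρ h0 h1 n = ((coefT ρ n : ℝ) : ℂ) := rfl

lemma re_bdry_gamB (ρ : ℝ) (h0 : 0 ≤ ρ) (h1 : ρ ≤ 1 / 2) (x : Tor) :
    (bdry (gamB ρ h0 h1) x).re = 2 * max 0 (‖x‖ - ρ) := by
  obtain ⟨y, rfl, hy, hy2⟩ := exists_rep x
  rw [hy]
  exact (re_bdry_eq _ (coefB ρ) (gamB_apply ρ h0 h1) y).unique
    (hasSum_coefB ρ |y| h0 h1 (abs_nonneg _) hy2)

lemma re_bdry_gamT (ρ : ℝ) (h0 : 0 ≤ ρ) (h1 : ρ ≤ 1 / 2) (x : Tor) :
    (bdry (gamT ρ h0 h1) x).re = max 0 (ρ - ‖x‖) := by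
  obtain ⟨y, rfl, hy, hy2⟩ := exists_rep x
  rw [hy]
  exact (re_bdry_eq _ (coefT ρ) (gamT_apply ρ h0 h1) y).unique
    (hasSum_coefT ρ |y| h0 h1 (abs_nonneg _) hy2)

lemma gamB_zero (ρ : ℝ) (h0 : 0 ≤ ρ) (h1 : ρ ≤ 1 / 2) :
    (gamB ρ h0 h1 0).re = 2 * (ρ - 1 / 2) ^ 2 := by
  rw [gamB_apply, Complex.ofReal_re, coefB]
  simp

lemma gamT_zero (ρ : ℝ) (h0 : 0 ≤ ρ) (h1 : ρ ≤ 1 / 2) :
    (gamT ρ h0 h1 0).re = ρ ^ 2 := by
  rw [gamT_apply, Complex.ofReal_re, coefT]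
  simp

/-- A uniform bound for the norms of `gamB`. -/
noncomputable def normBound : ℝ :=
  ∑' n : ℕ, (4 * (if n = 0 then 1 else 0) + 4 * (1 / (n : ℝ) ^ 2))

lemma norm_gamB_le (ρ : ℝ) (h0 : 0 ≤ ρ) (h1 : ρ ≤ 1 / 2) : ‖gamB ρ h0 h1‖ ≤ normBound := by
  rw [norm_l1_eq, normBound]
  refine Summable.tsum_le_tsum (fun n => ?_) (summable_norm_l1 _) ?_
  · rw [gamB_apply]; exact coefB_bound ρ h0 h1 n
  · refine Summable.add ?_ (summable_inv_sq.mul_left 4)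
    exact (hasSum_ite_eq (0 : ℕ) (1 : ℝ)).summable.mul_left 4

end Pool.Agent.Helper55.WH
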