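import Mathlib
import Pool.Agent.Helper55.WH.Tent

set_option autoImplicit false

open Filter Topology MeasureTheory AddCircle
open scoped InnerProductSpace ENNReal

namespace Pool.Agent.Helper55.WH

/-- The radii of the arcs. -/
noncomputable def rad (k : ℕ) : ℝ := 1 / ((k : ℝ) + 3)

lemma rad_pos (k : ℕ) : 0 < rad k := by rw [rad]; positivity

lemma rad_le (k : ℕ) : rad k ≤ 1 / 3 := by
  rw [rad]
  exact one_div_le_one_div_of_le (by norm_num) (by linarith [(Nat.cast_nonneg k : (0 : ℝ) ≤ k)])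

lemma rad_le' (k : ℕ) : rad k ≤ 1 / 2 := (rad_le k).trans (by norm_num)

lemma rad_anti {j k : ℕ} (h : j ≤ k) : rad k ≤ rad j := by
  rw [rad, rad]
  have : (j : ℝ) ≤ k := by exact_mod_cast h
  exact one_div_le_one_div_of_le (by positivity) (by linarith)

/-- The linear map sending weights to Taylor coefficients. -/
noncomputable def Gam : lp (fun _ : ℕ => ℝ) 1 →L[ℝ] lp (fun _ : ℕ => ℂ) 1 :=
  sumCLM (fun k => gamB (rad k) (rad_pos k).le (rad_le' k)) normBound
    (fun k => norm_gamB_le (rad k) (rad_pos k).le (rad_le' k))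

/-- The log-modulus profile of the `k`-th building block. -/
noncomputable def prof (k : ℕ) (x : Tor) : ℝ := 2 * max 0 (‖x‖ - rad k)

lemma prof_nonneg (k : ℕ) (x : Tor) : 0 ≤ prof k x := by rw [prof]; positivity

lemma norm_le_half (x : Tor) : ‖x‖ ≤ 1 / 2 := by
  have := AddCircle.norm_le_half_period (1 : ℝ) (x := x) one_ne_zero
  simpa using this

lemma prof_le_one (k : ℕ) (x : Tor) : prof k x ≤ 1 := by
  have h := norm_le_half x
  have h2 := rad_pos k
  rw [prof]
  rcases le_total 0 (‖x‖ - rad k) with h3 | h3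
  · rw [max_eq_right h3]; linarith
  · rw [max_eq_left h3]; norm_num

lemma hasSum_re (a : lp (fun _ : ℕ => ℝ) 1) (x : Tor) :
    HasSum (fun k : ℕ => a k * prof k x) ((bdry (Gam a) x).re) := by
  have h := (hasSum_sumCLM (fun k => gamB (rad k) (rad_pos k).le (rad_le' k)) normBound
    (fun k => norm_gamB_le (rad k) (rad_pos k).le (rad_le' k)) a)
  have h1 := (h.mapL (bdry.restrictScalars ℝ)).mapL
    ((ContinuousMap.evalCLM ℂ x : C(Tor, ℂ) →L[ℂ] ℂ).restrictScalars ℝ)
  have h2 := Complex.hasSum_re h1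
  refine h2.congr_fun fun k => ?_
  change a k * prof k x = ((bdry (a k • gamB (rad k) (rad_pos k).le (rad_le' k))) x).re
  have h3 : bdry (a k • gamB (rad k) (rad_pos k).le (rad_le' k)) =
      a k • bdry (gamB (rad k) (rad_pos k).le (rad_le' k)) :=
    (bdry.restrictScalars ℝ).map_smul (a k) _
  rw [h3, ContinuousMap.smul_apply, Complex.smul_re, re_bdry_gamB, smul_eq_mul, prof]

lemma hasSum_zero_coef (a : lp (fun _ : ℕ => ℝ) 1) :
    HasSum (fun k : ℕ => a k * (2 * (rad k - 1 / 2) ^ 2)) ((Gam a 0).re) := by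
  have h := (hasSum_sumCLM (fun k => gamB (rad k) (rad_pos k).le (rad_le' k)) normBound
    (fun k => norm_gamB_le (rad k) (rad_pos k).le (rad_le' k)) a)
  have h1 := h.mapL (lp.evalCLM ℝ (fun _ : ℕ => ℂ) 1 0)
  have h2 := Complex.hasSum_re h1
  refine h2.congr_fun fun k => ?_
  change _ = ((a k • gamB (rad k) (rad_pos k).le (rad_le' k) : lp (fun _ : ℕ => ℂ) 1) 0).re
  rw [lp.coeFn_smul, Pi.smul_apply, Complex.smul_re, gamB_zero, smul_eq_mul]

/-- The parameter space: nonnegative summable weights. -/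
def Par : Type := {a : lp (fun _ : ℕ => ℝ) 1 // ∀ k, 0 ≤ a k}

noncomputable instance : MetricSpace Par := inferInstanceAs (MetricSpace
  {a : lp (fun _ : ℕ => ℝ) 1 // ∀ k, 0 ≤ a k})

lemma continuous_coord (k : ℕ) : Continuous fun a : lp (fun _ : ℕ => ℝ) 1 => a k :=
  (lp.evalCLM ℝ (fun _ : ℕ => ℝ) 1 k).continuous

instance : CompleteSpace Par := by
  have : IsClosed {a : lp (fun _ : ℕ => ℝ) 1 | ∀ k, 0 ≤ a k} := by
    rw [Set.ofPred_forall]
    exact isClosed_iInter fun k => isClosed_le continuous_const (continuous_coord k)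
  exact this.completeSpace_coe

instance : Nonempty Par := ⟨⟨0, fun k => by simp⟩⟩

/-- Finitely supported weights with positive `n`-th weight. -/
def Fin0 (n : ℕ) : Set Par := {a | (∃ K, ∀ k, K ≤ k → a.1 k = 0) ∧ 0 < a.1 n}

lemma dense_Fin0 (n : ℕ) : Dense (Fin0 n) := by
  intro a
  -- approximating sequence
  let s : ℕ → lp (fun _ : ℕ => ℝ) 1 := fun N =>
    (∑ k ∈ Finset.range N, lp.single 1 k (a.1 k)) + lp.single 1 n (1 / ((N : ℝ) + 1))
  have hs : ∀ N k, s N k = (if k < N then a.1 k else 0) +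
      (if k = n then 1 / ((N : ℝ) + 1) else 0) := by
    intro N k
    simp only [s]
    rw [lp.coeFn_add, Pi.add_apply, lp.coeFn_sum, Finset.sum_apply]
    congr 1
    · have : ∀ i ∈ Finset.range N, (lp.single 1 i (a.1 i) : lp (fun _ : ℕ => ℝ) 1) k =
          if i = k then a.1 k else 0 := by
        intro i _
        rw [lp.coeFn_single]
        by_cases h : i = k
        · subst h; simp
        · rw [if_neg h]; exact Pi.single_eq_of_ne (M := fun _ : ℕ => ℝ) (Ne.symm h) _
      rw [Finset.sum_congr rfl this, Finset.sum_ite_eq' (Finset.range N) k]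
      simp
    · rw [lp.coeFn_single]
      by_cases h : k = n
      · subst h; simp
      · rw [if_neg h]; exact Pi.single_eq_of_ne (M := fun _ : ℕ => ℝ) h _
  have hnn : ∀ N k, 0 ≤ s N k := by
    intro N k
    rw [hs]
    have := a.2 k
    split_ifs <;> positivity
  have hlim : Tendsto s atTop (𝓝 (a.1 + 0)) := by
    refine Tendsto.add ?_ ?_
    · exact (lp.hasSum_single (by simp) a.1).tendsto_sum_nat
    · rw [tendsto_zero_iff_norm_tendsto_zero]
      have : ∀ N : ℕ, ‖(lp.single 1 n (1 / ((N : ℝ) + 1)) : lp (fun _ : ℕ => ℝ) 1)‖ =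
          1 / ((N : ℝ) + 1) := by
        intro N
        rw [lp.norm_single (by simp), Real.norm_of_nonneg (by positivity)]
      simp only [this]
      exact tendsto_one_div_add_atTop_nhds_zero_nat
  rw [add_zero] at hlim
  have hlim' : Tendsto (fun N => (⟨s N, hnn N⟩ : Par)) atTop (𝓝 a) :=
    tendsto_subtype_rng.2 hlim
  refine mem_closure_of_tendsto hlim' (Eventually.of_forall fun N => ⟨⟨N + n + 1, ?_⟩, ?_⟩)
  · intro k hk
    change s N k = 0
    rw [hs, if_neg (by omega), if_neg (by omega), add_zero]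
  · change 0 < s N n
    rw [hs, if_pos rfl]
    have := a.2 n
    split_ifs <;> positivity

lemma pow_pos_of_neg_sq {t : ℝ} (h : t < 0) : 0 < t ^ 2 := by nlinarith

/-- Block property for finitely supported nonzero weights. -/
lemma blockProp_of_fin (a : Par) (n : ℕ) (ha : a ∈ Fin0 n) : BlockProp (TT (Gam a.1)) := by
  obtain ⟨⟨K, hK⟩, hn⟩ := ha
  refine blockProp_TT {x : Tor | ‖x‖ ≤ rad K} (isClosed_le continuous_norm
    continuous_const).measurableSet (Gam a.1) ?_ ?_ ?_
    (gamT (rad K) (rad_pos K).le (rad_le' K)) ?_ ?_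
  · intro x
    exact (hasSum_re a.1 x).nonneg fun k => mul_nonneg (a.2 k) (prof_nonneg k x)
  · intro x hx
    refine (hasSum_re a.1 x).unique ?_
    have : (fun k : ℕ => a.1 k * prof k x) = fun _ => 0 := by
      funext k
      rcases le_or_gt K k with hk | hk
      · rw [hK k hk, zero_mul]
      · have h1 : ‖x‖ ≤ rad k := le_trans hx (rad_anti hk.le)
        rw [prof, max_eq_left (by linarith), mul_zero, mul_zero]
    rw [this]
    exact hasSum_zero
  · have h := hasSum_zero_coef a.1
    have hterm : ∀ k, 0 ≤ a.1 k * (2 * (rad k - 1 / 2) ^ 2) := fun k =>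
      mul_nonneg (a.2 k) (by positivity)
    have h1 : a.1 n * (2 * (rad n - 1 / 2) ^ 2) ≤ (Gam a.1 0).re :=
      le_hasSum h n fun k _ => hterm k
    have h2 : rad n - 1 / 2 < 0 := by linarith [rad_le n]
    have h3 : 0 < (rad n - 1 / 2) ^ 2 := pow_pos_of_neg_sq h2
    have h4 : 0 < a.1 n * (2 * (rad n - 1 / 2) ^ 2) := mul_pos hn (by linarith)
    linarith
  · intro x hx
    simp only [Set.mem_ofPred_eq, not_le] at hx
    rw [re_bdry_gamT, max_eq_left (by linarith)]
  · rw [gamT_zero]
    have := rad_pos K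
    positivity

/-- Threshold for the tails. -/
noncomputable def thr (j : ℕ) : ℝ := Real.exp (-(((j : ℝ) + 1) / rad j)) / 2

lemma thr_pos (j : ℕ) : 0 < thr j := by rw [thr]; positivity

/-- The tail of a weight sequence. -/
noncomputable def tail (a : lp (fun _ : ℕ => ℝ) 1) (j : ℕ) : ℝ :=
  ‖a‖ - ∑ k ∈ Finset.range (j + 1), a k

lemma continuous_tail (j : ℕ) : Continuous fun a : lp (fun _ : ℕ => ℝ) 1 => tail a j :=
  continuous_norm.sub (continuous_finsetSum _ fun k _ => continuous_coord k)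

lemma hasSum_norm_par (a : Par) : HasSum (fun k => a.1 k) ‖a.1‖ := by
  have h := norm_l1_eq a.1
  have h2 : ∀ k, ‖a.1 k‖ = a.1 k := fun k => Real.norm_of_nonneg (a.2 k)
  have h3 := summable_norm_l1 a.1
  simp only [h2] at h h3
  rw [h]
  exact h3.hasSum

lemma hasSum_tail (a : Par) (j : ℕ) :
    HasSum (fun k => if k < j + 1 then 0 else a.1 k) (tail a.1 j) := by
  have h1 : HasSum (fun k => if k ∈ Finset.range (j + 1) then a.1 k else 0)
      (∑ k ∈ Finset.range (j + 1), a.1 k) := by
    have h2 : HasSum (fun k => if k ∈ Finset.range (j + 1) then a.1 k else 0)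
        (∑ k ∈ Finset.range (j + 1), if k ∈ Finset.range (j + 1) then a.1 k else 0) :=
      hasSum_sum_of_ne_finset_zero (fun k hk => if_neg hk)
    rw [Finset.sum_congr rfl (fun k hk => if_pos hk)] at h2
    exact h2
  refine ((hasSum_norm_par a).sub h1).congr_fun fun k => ?_
  by_cases hk : k < j + 1
  · rw [if_pos hk, if_pos (Finset.mem_range.2 hk), sub_self]
  · rw [if_neg hk, if_neg (fun h => hk (Finset.mem_range.1 h)), sub_zero]

/-- On the `j`-th arc the log-modulus is bounded by the tail. -/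
lemma re_le_tail (a : Par) (j : ℕ) (x : Tor) (hx : ‖x‖ ≤ rad j) :
    (bdry (Gam a.1) x).re ≤ tail a.1 j := by
  refine hasSum_le (fun k => ?_) (hasSum_re a.1 x) (hasSum_tail a j)
  by_cases hk : k < j + 1
  · rw [if_pos hk]
    have h1 : ‖x‖ ≤ rad k := hx.trans (rad_anti (by omega))
    rw [prof, max_eq_left (by linarith), mul_zero, mul_zero]
  · rw [if_neg hk]
    exact mul_le_of_le_one_right (a.2 k) (prof_le_one k x)

lemma re_pos (a : Par) (ha : ∀ k, 0 < a.1 k) (x : Tor) (hx : x ≠ 0) :
    0 < (bdry (Gam a.1) x).re := by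
  have hx' : 0 < ‖x‖ := norm_pos_iff.2 hx
  obtain ⟨k, hk⟩ := exists_nat_gt (1 / ‖x‖)
  have h1 : rad k < ‖x‖ := by
    rw [rad, div_lt_iff₀ (by positivity)]
    rw [div_lt_iff₀ hx'] at hk
    nlinarith
  have h2 : a.1 k * prof k x ≤ (bdry (Gam a.1) x).re :=
    le_hasSum (hasSum_re a.1 x) k fun i _ => mul_nonneg (a.2 i) (prof_nonneg i x)
  refine lt_of_lt_of_le ?_ h2
  rw [prof, max_eq_right (by linarith)]
  exact mul_pos (ha k) (by linarith)

lemma re_nonneg (a : Par) (x : Tor) : 0 ≤ (bdry (Gam a.1) x).re :=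
  (hasSum_re a.1 x).nonneg fun k => mul_nonneg (a.2 k) (prof_nonneg k x)

/-- The generic conditions. -/
def DD (n : ℕ) : Set Par := {a | 0 < a.1 n} ∩ {a | ∃ j, n ≤ j ∧ tail a.1 j < thr j}

lemma isOpen_DD (n : ℕ) : IsOpen (DD n) := by
  refine IsOpen.inter ?_ ?_
  · exact isOpen_lt continuous_const ((continuous_coord n).comp continuous_subtype_val)
  · have : {a : Par | ∃ j, n ≤ j ∧ tail a.1 j < thr j} =
        ⋃ (j : ℕ) (_ : n ≤ j), {a : Par | tail a.1 j < thr j} := by
      ext a; simp
    rw [this]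
    exact isOpen_iUnion fun j => isOpen_iUnion fun _ =>
      isOpen_lt ((continuous_tail j).comp continuous_subtype_val) continuous_const

lemma Fin0_subset_DD (n : ℕ) : Fin0 n ⊆ DD n := by
  rintro a ⟨⟨K, hK⟩, hn⟩
  refine ⟨hn, n + K, by omega, ?_⟩
  have h := (hasSum_tail a (n + K)).unique (a₂ := 0) (by
    have : (fun k => if k < n + K + 1 then (0 : ℝ) else a.1 k) = fun _ => 0 := by
      funext k
      by_cases hk : k < n + K + 1
      · rw [if_pos hk]
      · rw [if_neg hk]; exact hK k (by omega)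
    rw [this]
    exact hasSum_zero)
  rw [h]
  exact thr_pos _

lemma dense_DD (n : ℕ) : Dense (DD n) := (dense_Fin0 n).mono (Fin0_subset_DD n)

lemma continuous_TT : Continuous fun a : Par => TT (Gam a.1) := by
  let _ : NormedAlgebra ℚ (HH →L[ℂ] HH) := NormedAlgebra.restrictScalars ℚ ℂ (HH →L[ℂ] HH)
  have h1 : Continuous fun a : Par => toep (Gam a.1) :=
    toep.continuous.comp (Gam.continuous.comp continuous_subtype_val)
  have h2 : Continuous fun a : Par => NormedSpace.exp (toep (Gam a.1)) :=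
    NormedSpace.exp_continuous.comp h1
  exact (ContinuousLinearMap.adjoint (𝕜 := ℂ) (E := HH) (F := HH)).continuous.comp h2

instance : TopologicalSpace.SeparableSpace HH := by
  have : Fact ((2 : ℝ≥0∞) ≠ ∞) := ⟨by simp⟩
  have h1 : SecondCountableTopology L2 := inferInstance
  have h2 : SecondCountableTopology HH :=
    Topology.IsInducing.secondCountableTopology (f := incl)
      incl.isometry.isUniformInducing.isInducing
  infer_instance

/-- The generic parameter. -/
theorem exists_par : ∃ a : Par, (∀ n, a ∈ DD n) ∧ WeaklyHypercyclic (TT (Gam a.1)) :=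
  exists_weaklyHypercyclic (fun a : Par => TT (Gam a.1)) continuous_TT (Fin0 0) (dense_Fin0 0)
    (fun a ha => blockProp_of_fin a 0 ha) DD isOpen_DD dense_DD

end Pool.Agent.Helper55.WH
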